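import Mathlib
import Pool.Agent.Lib.H52W.Stab
import Pool.Agent.Lib.H52W.Legs

/-!
# MP_273810_co: a polygon near a point which is no vertex (library H45Z, helper45)

`sd v p j` = distance from `p` to the closed side `j`; `rho2 v p` = the second smallest of these
distances. The ball of radius `rho2 v p` around `p` meets at most one side, and if it meets side `j`
then it is cut by the line of this side into an inner half (in `interior P`) and an outer half
(disjoint from `P`), the points of the line lying in the open side.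
-/

open Set Metric Filter Topology

namespace Pool.Agent.Lib.H45Z

open Pool.Agent.Lib.H42I (IsPolygon)
open Pool.Agent.H52W (cdet curve Inside)

/-- distance to the closed side `j` -/
noncomputable def sd {n : ℕ} (v : ZMod n → ℂ) (p : ℂ) (j : ZMod n) : ℝ :=
  infDist p (segment ℝ (v j) (v (j + 1)))

theorem side_nonempty {n : ℕ} (v : ZMod n → ℂ) (j : ZMod n) :
    (segment ℝ (v j) (v (j + 1))).Nonempty := ⟨v j, left_mem_segment ℝ _ _⟩

theorem side_closed {n : ℕ} (v : ZMod n → ℂ) (j : ZMod n) :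
    IsClosed (segment ℝ (v j) (v (j + 1))) := by
  rw [segment_eq_image]
  exact (isCompact_Icc.image (by fun_prop)).isClosed

theorem sd_nonneg {n : ℕ} (v : ZMod n → ℂ) (p : ℂ) (j : ZMod n) : 0 ≤ sd v p j := infDist_nonneg

theorem sd_le_add {n : ℕ} (v : ZMod n → ℂ) (p q : ℂ) (j : ZMod n) :
    sd v p j ≤ sd v q j + ‖p - q‖ := by
  have := infDist_le_infDist_add_dist (s := segment ℝ (v j) (v (j + 1))) (x := p) (y := q)
  rwa [dist_eq_norm] at this

theorem sd_eq_zero_iff {n : ℕ} (v : ZMod n → ℂ) (p : ℂ) (j : ZMod n) :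
    sd v p j = 0 ↔ p ∈ segment ℝ (v j) (v (j + 1)) :=
  ((side_closed v j).mem_iff_infDist_zero (side_nonempty v j)).symm

theorem not_mem_of_lt {n : ℕ} (v : ZMod n → ℂ) (p z : ℂ) (j : ZMod n) (h : ‖z - p‖ < sd v p j) :
    z ∉ segment ℝ (v j) (v (j + 1)) := by
  intro hz
  have h1 : sd v p j ≤ dist p z := infDist_le_dist_of_mem hz
  rw [dist_comm, dist_eq_norm] at h1
  linarith

/-- the pairs of different sides -/
noncomputable def prs (n : ℕ) [NeZero n] : Finset (ZMod n × ZMod n) :=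
  haveI : Fintype (ZMod n) := ZMod.fintype n
  Finset.univ.filter fun x => x.1 ≠ x.2

theorem prs_nonempty (n : ℕ) [NeZero n] (h : 3 ≤ n) : (prs n).Nonempty := by
  have : Fact (1 < n) := ⟨by omega⟩
  exact ⟨(0, 1), by simp [prs]⟩

open Classical in
/-- the second smallest distance to the sides -/
noncomputable def rho2 {n : ℕ} (v : ZMod n → ℂ) (p : ℂ) : ℝ :=
  if h : 3 ≤ n then
    haveI : NeZero n := ⟨by omega⟩
    (prs n).inf' (prs_nonempty n h) fun x => max (sd v p x.1) (sd v p x.2)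
  else 0

theorem le_rho2_iff {n : ℕ} (hn : 3 ≤ n) (v : ZMod n → ℂ) (p : ℂ) (r : ℝ) :
    r ≤ rho2 v p ↔ ∀ i j, i ≠ j → r ≤ max (sd v p i) (sd v p j) := by
  haveI : NeZero n := ⟨by omega⟩
  unfold rho2
  rw [dif_pos hn, Finset.le_inf'_iff]
  simp [prs]

theorem lt_rho2_iff {n : ℕ} (hn : 3 ≤ n) (v : ZMod n → ℂ) (p : ℂ) (r : ℝ) :
    r < rho2 v p ↔ ∀ i j, i ≠ j → r < max (sd v p i) (sd v p j) := by
  haveI : NeZero n := ⟨by omega⟩
  unfold rho2
  rw [dif_pos hn, Finset.lt_inf'_iff]
  simp [prs]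

theorem rho2_le {n : ℕ} (hn : 3 ≤ n) (v : ZMod n → ℂ) (p : ℂ) (i j : ZMod n) (hij : i ≠ j) :
    rho2 v p ≤ max (sd v p i) (sd v p j) := (le_rho2_iff hn v p _).1 le_rfl i j hij

theorem rho2_nonneg {n : ℕ} (hn : 3 ≤ n) (v : ZMod n → ℂ) (p : ℂ) : 0 ≤ rho2 v p :=
  (le_rho2_iff hn v p 0).2 fun i _ _ => (sd_nonneg v p i).trans (le_max_left _ _)

/-- `rho2` is 1-Lipschitz -/
theorem rho2_le_add {n : ℕ} (hn : 3 ≤ n) (v : ZMod n → ℂ) (p q : ℂ) :
    rho2 v p ≤ rho2 v q + ‖p - q‖ := by
  rw [← sub_le_iff_le_add, le_rho2_iff hn]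
  intro i j hij
  have h1 := rho2_le hn v p i j hij
  have h2 := sd_le_add v p q i
  have h3 := sd_le_add v p q j
  have h4 : max (sd v p i) (sd v p j) ≤ max (sd v q i) (sd v q j) + ‖p - q‖ :=
    max_le (h2.trans (by linarith [le_max_left (sd v q i) (sd v q j)]))
      (h3.trans (by linarith [le_max_right (sd v q i) (sd v q j)]))
  linarith

theorem rho2_continuous {n : ℕ} (hn : 3 ≤ n) (v : ZMod n → ℂ) : Continuous (rho2 v) := by
  have h : LipschitzWith 1 (rho2 v) := LipschitzWith.of_le_add fun p q => by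
    rw [dist_eq_norm]; exact rho2_le_add hn v p q
  exact h.continuous

/-- `rho2` vanishes exactly at the vertices -/
theorem rho2_pos {n : ℕ} {P : Set ℂ} {v : ZMod n → ℂ} (hP : IsPolygon P v) (p : ℂ)
    (hp : ∀ i, p ≠ v i) : 0 < rho2 v p := by
  rw [lt_rho2_iff hP.three_le]
  intro i j hij
  by_contra hcon
  rw [not_lt] at hcon
  have h1 : sd v p i = 0 := le_antisymm ((le_max_left _ _).trans hcon) (sd_nonneg _ _ _)
  have h2 : sd v p j = 0 := le_antisymm ((le_max_right _ _).trans hcon) (sd_nonneg _ _ _)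
  rw [sd_eq_zero_iff] at h1 h2
  rcases (hP.simple i j hij ⟨h1, h2⟩).1 with h3 | h3
  · exact hp i h3
  · exact hp (i + 1) h3

theorem rho2_vertex {n : ℕ} {P : Set ℂ} {v : ZMod n → ℂ} (hP : IsPolygon P v) (i : ZMod n) :
    rho2 v (v i) = 0 := by
  have hn := hP.three_le
  have : Fact (1 < n) := ⟨by omega⟩
  have h0 : i - 1 ≠ i := by
    intro h
    have : (1 : ZMod n) = 0 := by
      have := congrArg (fun z => i - z) h
      simpa using this
    exact one_ne_zero this
  apply le_antisymm _ (rho2_nonneg hn v _)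
  refine (rho2_le hn v (v i) (i - 1) i h0).trans ?_
  rw [(sd_eq_zero_iff v (v i) (i - 1)).2 (by simpa using right_mem_segment ℝ (v (i - 1)) (v (i - 1 + 1))),
    (sd_eq_zero_iff v (v i) i).2 (left_mem_segment ℝ _ _)]
  simp

/-- at most one side meets the ball -/
theorem one_side {n : ℕ} (hn : 3 ≤ n) (v : ZMod n → ℂ) (p : ℂ) {i j : ZMod n} {x y : ℂ}
    (hx : x ∈ ball p (rho2 v p)) (hy : y ∈ ball p (rho2 v p))
    (hxi : x ∈ segment ℝ (v i) (v (i + 1))) (hyj : y ∈ segment ℝ (v j) (v (j + 1))) : i = j := by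
  by_contra hij
  have h1 := rho2_le hn v p i j hij
  have h2 : sd v p i < rho2 v p := lt_of_le_of_lt (infDist_le_dist_of_mem hxi)
    (by rw [dist_comm]; exact hx)
  have h3 : sd v p j < rho2 v p := lt_of_le_of_lt (infDist_le_dist_of_mem hyj)
    (by rw [dist_comm]; exact hy)
  exact absurd (max_lt h2 h3) (not_lt.2 h1)

/-- a ball which meets no side and has a point in `P` lies in the interior -/
theorem ball_inside {n : ℕ} {P : Set ℂ} {v : ZMod n → ℂ} (hP : IsPolygon P v) (c : ℂ) (r : ℝ)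
    (h : ∀ j, Disjoint (ball c r) (segment ℝ (v j) (v (j + 1)))) {x : ℂ} (hx : x ∈ ball c r)
    (hxP : x ∈ P) : ball c r ⊆ interior P := by
  have hd : ∀ z ∈ ball c r, z ∉ curve v := by
    intro z hz hzc
    obtain ⟨j, hj⟩ := mem_iUnion.1 hzc
    exact Set.disjoint_left.1 (h j) hz hj
  have hn := Pool.Agent.H52W.neZero_of_polygon hP
  intro z hz
  have hzP : z ∈ P := ((Pool.Agent.H52W.reg_of_polygon hP).dichotomy
    (convex_ball c r).isPreconnected hd hx hz).1 hxP
  rw [Pool.Agent.H52W.mem_interior_iff_inside hP]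
  exact (Pool.Agent.H52W.mem_iff_inside hP z (hd z hz)).1 hzP

theorem cdet_mul_I (d : ℂ) (t : ℝ) : cdet d ((t : ℂ) * (Complex.I * d)) = t * Complex.normSq d := by
  simp only [cdet, Complex.normSq_apply, Complex.mul_re,
    Complex.mul_im, Complex.ofReal_re, Complex.ofReal_im, Complex.I_re, Complex.I_im]
  ring

theorem cdet_add (a b c : ℂ) : cdet a (b + c) = cdet a b + cdet a c := by
  simp only [cdet, Complex.add_re, Complex.add_im]; ring

theorem cdet_sub (a b c : ℂ) : cdet a (b - c) = cdet a b - cdet a c := by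
  simp only [cdet, Complex.sub_re, Complex.sub_im]; ring

theorem cdet_real (a b : ℂ) (t : ℝ) : cdet a ((t : ℂ) * b) = t * cdet a b := by
  simp only [cdet, Complex.mul_re, Complex.mul_im, Complex.ofReal_re, Complex.ofReal_im]; ring

theorem succ_ne {n : ℕ} (hn : 3 ≤ n) (i : ZMod n) : i + 1 ≠ i := by
  have : Fact (1 < n) := ⟨by omega⟩
  intro h
  exact one_ne_zero (add_eq_left.1 h)

theorem pred_ne {n : ℕ} (hn : 3 ≤ n) (i : ZMod n) : i - 1 ≠ i := by
  have : Fact (1 < n) := ⟨by omega⟩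
  intro h
  have h1 : (1 : ZMod n) = 0 := by
    have := congrArg (fun z => i - z) h
    simpa using this
  exact one_ne_zero h1

/-- In a ball which meets side `i` and no other side the points of the line of the side are in the
open side. -/
theorem line_in_side {n : ℕ} {P : Set ℂ} {v : ZMod n → ℂ} (hP : IsPolygon P v) (i : ZMod n) (c : ℂ)
    (r : ℝ) (h : ∀ j, j ≠ i → Disjoint (ball c r) (segment ℝ (v j) (v (j + 1)))) {p : ℂ}
    (hp : p ∈ ball c r) (hpi : p ∈ segment ℝ (v i) (v (i + 1))) {z : ℂ} (hz : z ∈ ball c r)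
    (hdet : cdet (v (i + 1) - v i) (z - v i) = 0) : z ∈ openSegment ℝ (v i) (v (i + 1)) := by
  have hn := hP.three_le
  have hne := Pool.Agent.H52W.side_ne_of_polygon hP i
  have hb0 : v (i + 1) - v i ≠ 0 := sub_ne_zero.2 (Ne.symm hne)
  obtain ⟨t, ht⟩ := Pool.Agent.H52W.parallel_of_cdet hb0 hdet
  obtain ⟨s, hs0, hs1, hs⟩ := Pool.Agent.H52W.mem_segment_param hpi
  have hv0 : v i ∉ ball c r := fun hm => Set.disjoint_left.1 (h (i - 1) (pred_ne hn i)) hm
    (by simpa using right_mem_segment ℝ (v (i - 1)) (v (i - 1 + 1)))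
  have hv1 : v (i + 1) ∉ ball c r := fun hm => Set.disjoint_left.1 (h (i + 1) (succ_ne hn i)) hm
    (left_mem_segment ℝ _ _)
  -- the points `v i + x (v (i+1) - v i)` with `x` between `s` and `t` are in the ball
  have key : ∀ x : ℝ, x ∈ uIcc s t → v i + (x : ℂ) * (v (i + 1) - v i) ∈ ball c r := by
    intro x hx
    have hconv : Convex ℝ {x : ℝ | v i + (x : ℂ) * (v (i + 1) - v i) ∈ ball c r} := by
      intro x hx y hy a b ha hb hab
      simp only [Set.mem_setOf_eq] at hx hy ⊢
      have := (convex_ball c r) hx hy ha hb hab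
      have e : a • (v i + (x : ℂ) * (v (i + 1) - v i)) + b • (v i + (y : ℂ) * (v (i + 1) - v i))
          = v i + ((a • x + b • y : ℝ) : ℂ) * (v (i + 1) - v i) := by
        have hab' : (a : ℂ) + b = 1 := by exact_mod_cast hab
        simp only [Complex.real_smul, smul_eq_mul]
        push_cast
        linear_combination (v i) * hab'
      rwa [e] at this
    have hs' : s ∈ {x : ℝ | v i + (x : ℂ) * (v (i + 1) - v i) ∈ ball c r} := by
      simp only [Set.mem_setOf_eq]; rwa [← hs]
    have ht' : t ∈ {x : ℝ | v i + (x : ℂ) * (v (i + 1) - v i) ∈ ball c r} := by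
      simp only [Set.mem_setOf_eq]
      rw [← ht]; simpa using hz
    exact hconv.ordConnected.uIcc_subset hs' ht' hx
  have ht0 : 0 < t := by
    by_contra hcon
    rw [not_lt] at hcon
    apply hv0
    have := key 0 (by rw [mem_uIcc]; right; exact ⟨hcon, hs0⟩)
    simpa using this
  have ht1 : t < 1 := by
    by_contra hcon
    rw [not_lt] at hcon
    apply hv1
    have := key 1 (by rw [mem_uIcc]; left; exact ⟨hs1, hcon⟩)
    simpa using this
  have e : z = v i + (t : ℂ) * (v (i + 1) - v i) := by rw [← ht]; ring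
  rw [e]
  exact Pool.Agent.H52W.param_mem_openSegment _ _ t ht0 ht1

/-- A ball which meets side `i` and no other side is cut into an inner and an outer half. -/
theorem ball_side {n : ℕ} {P : Set ℂ} {v : ZMod n → ℂ} (hP : IsPolygon P v) (i : ZMod n) (c : ℂ)
    (r : ℝ) (h : ∀ j, j ≠ i → Disjoint (ball c r) (segment ℝ (v j) (v (j + 1)))) {p : ℂ}
    (hp : p ∈ ball c r) (hpi : p ∈ segment ℝ (v i) (v (i + 1))) :
    ∃ σ : ℝ, (σ = 1 ∨ σ = -1) ∧ ∀ z ∈ ball c r,
      (0 < σ * cdet (v (i + 1) - v i) (z - v i) → z ∈ interior P) ∧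
      (σ * cdet (v (i + 1) - v i) (z - v i) < 0 → z ∉ P) := by
  haveI := Pool.Agent.H52W.neZero_of_polygon hP
  have hn := hP.three_le
  have hne := Pool.Agent.H52W.side_ne_of_polygon hP i
  set d := v (i + 1) - v i with hd
  have hb0 : d ≠ 0 := sub_ne_zero.2 (Ne.symm hne)
  have hpl : cdet d (p - v i) = 0 := Pool.Agent.H52W.cdet_side_zero v i p hpi
  have hpo := line_in_side hP i c r h hp hpi hp hpl
  have hreg := Pool.Agent.H52W.reg_of_polygon hP
  -- the two half balls avoid the curve and are convex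
  have hconv : ∀ σ : ℝ, Convex ℝ (ball c r ∩ {z | 0 < σ * cdet d (z - v i)}) := by
    intro σ
    apply (convex_ball c r).inter
    intro x hx y hy a b ha hb hab
    simp only [Set.mem_setOf_eq] at hx hy ⊢
    have e : σ * cdet d (a • x + b • y - v i) =
        a * (σ * cdet d (x - v i)) + b * (σ * cdet d (y - v i)) := by
      have e1 : a • x + b • y - v i = (a : ℂ) * (x - v i) + (b : ℂ) * (y - v i) := by
        have hab' : (a : ℂ) + b = 1 := by exact_mod_cast hab
        simp only [Complex.real_smul]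
        linear_combination (v i) * hab'
      rw [e1, cdet_add, cdet_real, cdet_real]; ring
    rw [e]
    rcases eq_or_lt_of_le ha with h0 | h0
    · have hb1 : b = 1 := by linarith
      rw [← h0, hb1]; simpa using hy
    · exact add_pos_of_pos_of_nonneg (mul_pos h0 hx) (mul_nonneg hb hy.le)
  have hav : ∀ σ : ℝ, ∀ z ∈ ball c r ∩ {z | 0 < σ * cdet d (z - v i)}, z ∉ curve v := by
    rintro σ z ⟨hz, hz2⟩ hzc
    obtain ⟨j, hj⟩ := mem_iUnion.1 hzc
    by_cases hji : j = i
    · subst hji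
      have h0 := Pool.Agent.H52W.cdet_side_zero v j z hj
      simp only [Set.mem_setOf_eq] at hz2
      rw [← hd] at h0
      rw [h0, mul_zero] at hz2
      exact lt_irrefl _ hz2
    · exact Set.disjoint_left.1 (h j hji) hz hj
  -- the flip at `p`
  have hother : ∀ j, j ≠ i → p ∉ segment ℝ (v j) (v (j + 1)) := fun j hj =>
    Pool.Agent.H52W.not_mem_other_side hP i j hj p hpo
  have hdI : cdet (Complex.I * d) (v (i + 1) - v i) ≠ 0 := by
    rw [← hd, Pool.Agent.H52W.cdet_swap]
    have := cdet_mul_I d 1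
    simp only [Complex.ofReal_one, one_mul] at this
    rw [this, neg_ne_zero]
    exact (Complex.normSq_pos.2 hb0).ne'
  have hflip := Pool.Agent.H52W.inside_flip_local v i p (Complex.I * d) hpo hother hdI
  have hballp : ∀ᶠ t : ℝ in 𝓝[>] 0, p + (t : ℂ) * (Complex.I * d) ∈ ball c r := by
    have hc : Continuous (fun t : ℝ => p + (t : ℂ) * (Complex.I * d)) := by fun_prop
    have := hc.tendsto 0
    simp only [Complex.ofReal_zero, zero_mul, add_zero] at this
    exact (this.eventually (isOpen_ball.mem_nhds hp)).filter_mono nhdsWithin_le_nhds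
  have hballm : ∀ᶠ t : ℝ in 𝓝[>] 0, p - (t : ℂ) * (Complex.I * d) ∈ ball c r := by
    have hc : Continuous (fun t : ℝ => p - (t : ℂ) * (Complex.I * d)) := by fun_prop
    have := hc.tendsto 0
    simp only [Complex.ofReal_zero, zero_mul, sub_zero] at this
    exact (this.eventually (isOpen_ball.mem_nhds hp)).filter_mono nhdsWithin_le_nhds
  obtain ⟨t, ⟨hc1, hc2, hiff⟩, hb1, hb2, ht0⟩ :=
    (hflip.and (hballp.and (hballm.and self_mem_nhdsWithin))).exists
  have ht : (0 : ℝ) < t := ht0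
  have hN : 0 < Complex.normSq d := Complex.normSq_pos.2 hb0
  set a := p + (t : ℂ) * (Complex.I * d) with ha
  set b := p - (t : ℂ) * (Complex.I * d) with hb
  have hda : cdet d (a - v i) = t * Complex.normSq d := by
    have e : a - v i = (p - v i) + (t : ℂ) * (Complex.I * d) := by rw [ha]; ring
    rw [e, cdet_add, hpl, cdet_mul_I, zero_add]
  have hdb : cdet d (b - v i) = -(t * Complex.normSq d) := by
    have e : b - v i = (p - v i) - (t : ℂ) * (Complex.I * d) := by rw [hb]; ring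
    rw [e, cdet_sub, hpl, cdet_mul_I, zero_sub]
  -- conclusion on a half ball from one of its points
  have hin : ∀ σ : ℝ, ∀ x ∈ ball c r ∩ {z | 0 < σ * cdet d (z - v i)}, Inside v x →
      ∀ z ∈ ball c r ∩ {z | 0 < σ * cdet d (z - v i)}, z ∈ interior P := by
    intro σ x hx hxI z hz
    rw [Pool.Agent.H52W.mem_interior_iff_inside hP]
    exact (Pool.Agent.H52W.inside_iff_of_isPreconnected v (hconv σ).isPreconnected (hav σ) hx hz).1 hxI
  have hout : ∀ σ : ℝ, ∀ x ∈ ball c r ∩ {z | 0 < σ * cdet d (z - v i)}, ¬ Inside v x →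
      ∀ z ∈ ball c r ∩ {z | 0 < σ * cdet d (z - v i)}, z ∉ P := by
    intro σ x hx hxI z hz hzP
    apply hxI
    have h1 := (Pool.Agent.H52W.mem_iff_inside hP z (hav σ z hz)).1 hzP
    exact (Pool.Agent.H52W.inside_iff_of_isPreconnected v (hconv σ).isPreconnected (hav σ) hx hz).2 h1
  have ha1 : a ∈ ball c r ∩ {z | 0 < (1 : ℝ) * cdet d (z - v i)} := by
    refine ⟨hb1, ?_⟩
    simp only [Set.mem_setOf_eq]
    rw [hda]; positivity
  have hb1' : b ∈ ball c r ∩ {z | 0 < (-1 : ℝ) * cdet d (z - v i)} := by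
    refine ⟨hb2, ?_⟩
    simp only [Set.mem_setOf_eq]
    rw [hdb]
    have : 0 < t * Complex.normSq d := mul_pos ht hN
    linarith
  by_cases haI : Inside v a
  · have hbI : ¬ Inside v b := fun hbI => (hiff.1 hbI) haI
    refine ⟨1, Or.inl rfl, fun z hz => ⟨fun h1 => hin 1 a ha1 haI z ⟨hz, h1⟩, fun h1 => ?_⟩⟩
    exact hout (-1) b hb1' hbI z ⟨hz, by simp only [Set.mem_setOf_eq]; linarith⟩
  · have hbI : Inside v b := hiff.2 haI
    refine ⟨-1, Or.inr rfl, fun z hz => ⟨fun h1 => hin (-1) b hb1' hbI z ⟨hz, h1⟩, fun h1 => ?_⟩⟩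
    exact hout 1 a ha1 haI z ⟨hz, by simp only [Set.mem_setOf_eq]; linarith⟩

end Pool.Agent.Lib.H45Z
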