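import Mathlib
import Pool.Agent.Lib.H45Z.Local
import Pool.Agent.Lib.H23D.Unf

/-!
# MP_273810_co: the translation surface of a polygon near its non-singular points (library H45Z)

Frames `g : Fr N = ZMod N × Bool` (rotation by `2 pi k / N`, composed with complex conjugation if the
bit is `true`). A point of the surface is `(p, g)` with `p` a point of `P` which is no vertex; on the
sides the bit is `false`. `nrm i (z, g)` folds a raw point across side `i`.
-/

open Set Metric Filter Topology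

namespace Pool.Agent.Lib.H45Z

open Pool.Agent.Lib.H42I (IsPolygon)
open Pool.Agent.H52W (cdet curve Inside)
open Pool.Agent.Lib.H23D (E)

/-- frames -/
abbrev Fr (N : ℕ) := ZMod N × Bool

/-- the linear isometry that belongs to a frame -/
noncomputable def fr {N : ℕ} [NeZero N] (g : Fr N) (u : ℂ) : ℂ :=
  E g.1 * (if g.2 then (starRingEnd ℂ) u else u)

/-- the frame after reflection in side `i` -/
def rf {n N : ℕ} (kap : ZMod n → ZMod N) (i : ZMod n) (g : Fr N) : Fr N := (2 * kap i - g.1, !g.2)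

section
variable {n N : ℕ} [NeZero N]

theorem rf_rf (kap : ZMod n → ZMod N) (i : ZMod n) (g : Fr N) : rf kap i (rf kap i g) = g := by
  unfold rf
  ext <;> simp

theorem norm_E (a : ZMod N) : ‖E a‖ = 1 := by
  have h1 : Complex.normSq (E a) = 1 := by
    have h2 := Pool.Agent.Lib.H23D.E_conj a
    have h3 := Complex.normSq_eq_conj_mul_self (z := E a)
    rw [h2, ← Pool.Agent.Lib.H23D.E_add, neg_add_cancel, Pool.Agent.Lib.H23D.E_zero] at h3
    exact_mod_cast h3
  rw [Complex.norm_def, h1, Real.sqrt_one]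

theorem norm_fr (g : Fr N) (u : ℂ) : ‖fr g u‖ = ‖u‖ := by
  unfold fr
  rw [norm_mul, norm_E, one_mul]
  split_ifs
  · exact Complex.norm_conj u
  · rfl

theorem fr_add (g : Fr N) (u w : ℂ) : fr g (u + w) = fr g u + fr g w := by
  unfold fr
  split_ifs
  · rw [map_add]; ring
  · ring

theorem fr_sub (g : Fr N) (u w : ℂ) : fr g (u - w) = fr g u - fr g w := by
  unfold fr
  split_ifs
  · rw [map_sub]; ring
  · ring

theorem fr_real (g : Fr N) (t : ℝ) (u : ℂ) : fr g ((t : ℂ) * u) = (t : ℂ) * fr g u := by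
  unfold fr
  split_ifs
  · rw [map_mul, Complex.conj_ofReal]; ring
  · ring

theorem fr_neg (g : Fr N) (u : ℂ) : fr g (-u) = -fr g u := by
  have := fr_real g (-1) u
  simpa using this

theorem fr_zero (g : Fr N) : fr g 0 = 0 := by
  have := fr_real g 0 0
  simpa using this

theorem fr_injective (g : Fr N) : Function.Injective (fr g) := by
  intro u w h
  have h1 : ‖fr g (u - w)‖ = 0 := by rw [fr_sub, h, sub_self, norm_zero]
  rw [norm_fr, norm_eq_zero] at h1
  exact sub_eq_zero.1 h1

/-- `kap i` is the direction of side `i` -/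
def Par (v : ZMod n → ℂ) (kap : ZMod n → ZMod N) : Prop :=
  ∀ i, ∃ r : ℝ, v (i + 1) - v i = (r : ℂ) * E (kap i)

/-- mirror image in the line of side `i` -/
noncomputable def mir (v : ZMod n → ℂ) (kap : ZMod n → ZMod N) (i : ZMod n) (z : ℂ) : ℂ :=
  v i + E (2 * kap i) * (starRingEnd ℂ) (z - v i)

theorem fr_rf (kap : ZMod n → ZMod N) (i : ZMod n) (g : Fr N) (u : ℂ) :
    fr (rf kap i g) u = E (2 * kap i) * (starRingEnd ℂ) (fr g u) := by
  unfold fr rf
  rw [map_mul, Pool.Agent.Lib.H23D.E_conj, ← mul_assoc, ← Pool.Agent.Lib.H23D.E_add]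
  cases h : g.2 <;> simp [sub_eq_add_neg]

theorem mir_add (v : ZMod n → ℂ) (kap : ZMod n → ZMod N) (i : ZMod n) (g : Fr N) (z u : ℂ) :
    mir v kap i (z + fr g u) = mir v kap i z + fr (rf kap i g) u := by
  rw [fr_rf]
  unfold mir
  have e : z + fr g u - v i = (z - v i) + fr g u := by ring
  rw [e, map_add]; ring

theorem mir_mir (v : ZMod n → ℂ) (kap : ZMod n → ZMod N) (i : ZMod n) (z : ℂ) :
    mir v kap i (mir v kap i z) = z := by
  unfold mir
  have e : v i + E (2 * kap i) * (starRingEnd ℂ) (z - v i) - v i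
      = E (2 * kap i) * (starRingEnd ℂ) (z - v i) := by ring
  rw [e, map_mul, Complex.conj_conj, Pool.Agent.Lib.H23D.E_conj, ← mul_assoc,
    ← Pool.Agent.Lib.H23D.E_add, add_neg_cancel, Pool.Agent.Lib.H23D.E_zero]
  ring

theorem norm_mir (v : ZMod n → ℂ) (kap : ZMod n → ZMod N) (i : ZMod n) (z w : ℂ) :
    ‖mir v kap i z - mir v kap i w‖ = ‖z - w‖ := by
  unfold mir
  have e : v i + E (2 * kap i) * (starRingEnd ℂ) (z - v i) -
      (v i + E (2 * kap i) * (starRingEnd ℂ) (w - v i)) = E (2 * kap i) * (starRingEnd ℂ) (z - w) := by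
    rw [map_sub, map_sub, map_sub]; ring
  rw [e, norm_mul, norm_E, one_mul, Complex.norm_conj]

/-- the mirror image of a direction along `E a` -/
theorem E_two_conj (a : ZMod N) (r : ℝ) :
    E (2 * a) * (starRingEnd ℂ) ((r : ℂ) * E a) = (r : ℂ) * E a := by
  rw [map_mul, Complex.conj_ofReal, Pool.Agent.Lib.H23D.E_conj]
  have : E (2 * a) * ((r : ℂ) * E (-a)) = (r : ℂ) * (E (2 * a) * E (-a)) := by ring
  rw [this, ← Pool.Agent.Lib.H23D.E_add]
  congr 2; ring

theorem cdet_mir {v : ZMod n → ℂ} {kap : ZMod n → ZMod N} (hk : Par v kap) (i : ZMod n) (z : ℂ) :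
    cdet (v (i + 1) - v i) (mir v kap i z - v i) = -cdet (v (i + 1) - v i) (z - v i) := by
  obtain ⟨r, hr⟩ := hk i
  rw [hr]
  have e : mir v kap i z - v i = E (2 * kap i) * (starRingEnd ℂ) (z - v i) := by unfold mir; ring
  rw [e]
  have h1 : ∀ a b : ℂ, cdet a b = ((starRingEnd ℂ) a * b).im := by
    intro a b
    simp [cdet, Complex.mul_im]; ring
  rw [h1, h1, map_mul, Complex.conj_ofReal, Pool.Agent.Lib.H23D.E_conj]
  have e2 : (r : ℂ) * E (-kap i) * (E (2 * kap i) * (starRingEnd ℂ) (z - v i))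
      = (starRingEnd ℂ) ((r : ℂ) * E (-kap i) * (z - v i)) := by
    rw [map_mul, map_mul, Complex.conj_ofReal, Pool.Agent.Lib.H23D.E_conj, neg_neg]
    have : (r : ℂ) * E (-kap i) * (E (2 * kap i) * (starRingEnd ℂ) (z - v i))
        = (r : ℂ) * (E (-kap i) * E (2 * kap i)) * (starRingEnd ℂ) (z - v i) := by ring
    rw [this, ← Pool.Agent.Lib.H23D.E_add]
    congr 3; ring
  rw [e2, Complex.conj_im]

theorem mir_side {v : ZMod n → ℂ} {kap : ZMod n → ZMod N} (hk : Par v kap) (i : ZMod n) (z : ℂ)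
    (hz : z ∈ segment ℝ (v i) (v (i + 1))) : mir v kap i z = z := by
  obtain ⟨s, _, _, hs⟩ := Pool.Agent.H52W.mem_segment_param hz
  obtain ⟨r, hr⟩ := hk i
  unfold mir
  have e : z - v i = ((s * r : ℝ) : ℂ) * E (kap i) := by
    rw [hs, hr]; push_cast; ring
  rw [e, E_two_conj, ← e]; ring

/-- If `p` is on the closed inner side and `z` on the other side of the line then the mirror image of `z`
is not farther from `p` than `z`. -/
theorem norm_mir_sub_le {v : ZMod n → ℂ} {kap : ZMod n → ZMod N} (hk : Par v kap) (i : ZMod n)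
    (hne : v i ≠ v (i + 1)) (p z : ℂ) (σ : ℝ) (hσ : σ = 1 ∨ σ = -1)
    (hp : 0 ≤ σ * cdet (v (i + 1) - v i) (p - v i)) (hz : σ * cdet (v (i + 1) - v i) (z - v i) ≤ 0) :
    ‖mir v kap i z - p‖ ≤ ‖z - p‖ := by
  obtain ⟨r, hr⟩ := hk i
  have hr0 : r ≠ 0 := by
    rintro rfl
    apply hne
    have : v (i + 1) - v i = 0 := by rw [hr]; simp
    exact (sub_eq_zero.1 this).symm
  -- coordinates along `E (kap i)`
  set e := E (kap i) with he
  have hee : (starRingEnd ℂ) e * e = 1 := by
    rw [he, Pool.Agent.Lib.H23D.E_conj, ← Pool.Agent.Lib.H23D.E_add, neg_add_cancel,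
      Pool.Agent.Lib.H23D.E_zero]
  have h2 : E (2 * kap i) = e * e := by
    rw [he, ← Pool.Agent.Lib.H23D.E_add]; congr 1; ring
  set a := (starRingEnd ℂ) e * (z - v i) with ha
  set b := (starRingEnd ℂ) e * (p - v i) with hb
  have hza : z - v i = e * a := by
    rw [ha, ← mul_assoc, mul_comm e, hee, one_mul]
  have hpb : p - v i = e * b := by
    rw [hb, ← mul_assoc, mul_comm e, hee, one_mul]
  have hmz : mir v kap i z - p = e * ((starRingEnd ℂ) a - b) := by
    unfold mir
    have : v i + E (2 * kap i) * (starRingEnd ℂ) (z - v i) - p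
        = E (2 * kap i) * (starRingEnd ℂ) (z - v i) - (p - v i) := by ring
    rw [this, hza, hpb, h2, map_mul]
    have : e * e * ((starRingEnd ℂ) e * (starRingEnd ℂ) a) = e * ((starRingEnd ℂ) e * e) * (starRingEnd ℂ) a := by
      ring
    rw [this, hee]; ring
  have hzp : z - p = e * (a - b) := by
    have : z - p = (z - v i) - (p - v i) := by ring
    rw [this, hza, hpb]; ring
  have hne1 : ‖e‖ = 1 := norm_E _
  have hcd : ∀ w c : ℂ, w = e * c → cdet (v (i + 1) - v i) w = r * c.im := by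
    intro w c hw
    rw [hr, hw]
    have h1 : ∀ a b : ℂ, cdet a b = ((starRingEnd ℂ) a * b).im := by
      intro a b
      simp [cdet, Complex.mul_im]; ring
    rw [h1, map_mul, Complex.conj_ofReal]
    have : (r : ℂ) * (starRingEnd ℂ) e * (e * c) = (r : ℂ) * ((starRingEnd ℂ) e * e) * c := by ring
    rw [this, hee, mul_one, Complex.im_ofReal_mul]
  rw [hcd _ _ hpb] at hp
  rw [hcd _ _ hza] at hz
  rw [hmz, hzp, norm_mul, norm_mul, hne1, one_mul, one_mul]
  have hab : a.im * b.im ≤ 0 := by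
    have h1 : (σ * (r * b.im)) * (σ * (r * a.im)) ≤ 0 := mul_nonpos_of_nonneg_of_nonpos hp hz
    have hs2 : σ ^ 2 = 1 := by rcases hσ with h | h <;> rw [h] <;> norm_num
    have h2 : (σ * (r * b.im)) * (σ * (r * a.im)) = r ^ 2 * (a.im * b.im) := by
      linear_combination (r ^ 2 * (a.im * b.im)) * hs2
    rw [h2] at h1
    have h3 : 0 < r ^ 2 := by positivity
    by_contra hcon
    rw [not_le] at hcon
    exact absurd (mul_pos h3 hcon) (not_lt.2 h1)
  rw [Complex.norm_def, Complex.norm_def]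
  apply Real.sqrt_le_sqrt
  simp only [Complex.normSq_apply, Complex.sub_re, Complex.sub_im, Complex.conj_re, Complex.conj_im]
  nlinarith

end

end Pool.Agent.Lib.H45Z
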