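import Mathlib
import Pool.Agent.Lib.H45Z.Fold
import Pool.Agent.Lib.H32D.TS

/-!
# MP_273810_co: the translation surface of a polygon (library H45Z, helper45)

`SPt P v N`: the non-singular points `(p, g)` of the surface; `surf hP hk : TS (SPt P v N)` is the
structure of helper32's `TS` (local translations `add`, radius `rho = rho2 v p`).
-/

open Set Metric Filter Topology

namespace Pool.Agent.Lib.H45Z

open Pool.Agent.Lib.H42I (IsPolygon)
open Pool.Agent.H52W (cdet curve Inside)
open Pool.Agent.Lib.H23D (E)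

section
variable {n N : ℕ} [NeZero N]

theorem side_mem {P : Set ℂ} {v : ZMod n → ℂ} (hP : IsPolygon P v) {i : ZMod n} {z : ℂ}
    (hz : z ∈ segment ℝ (v i) (v (i + 1))) : z ∈ P ∧ z ∉ interior P := by
  have h1 : z ∈ frontier P := by rw [hP.frontier_eq]; exact mem_iUnion.2 ⟨i, hz⟩
  exact ⟨hP.compact.isClosed.frontier_subset h1, h1.2⟩

/-- a nearest side -/
noncomputable def ns (v : ZMod n → ℂ) (p : ℂ) : ZMod n :=
  open Classical in if h : ∃ i, ∀ j, sd v p i ≤ sd v p j then h.choose else 0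

theorem ns_spec (hn : 3 ≤ n) (v : ZMod n → ℂ) (p : ℂ) (j : ZMod n) : sd v p (ns v p) ≤ sd v p j := by
  have : NeZero n := ⟨by omega⟩
  have h : ∃ i, ∀ j, sd v p i ≤ sd v p j := Finite.exists_min (sd v p)
  unfold ns
  rw [dif_pos h]
  exact h.choose_spec j

/-- the sides different from the nearest one do not meet the ball -/
theorem ball_disj (hn : 3 ≤ n) (v : ZMod n → ℂ) (p : ℂ) (j : ZMod n) (hj : j ≠ ns v p) :
    Disjoint (ball p (rho2 v p)) (segment ℝ (v j) (v (j + 1))) := by
  rw [Set.disjoint_left]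
  intro z hz hzj
  have h1 : sd v p j < rho2 v p := lt_of_le_of_lt (infDist_le_dist_of_mem hzj)
    (by rw [dist_comm]; exact hz)
  have h2 := (ns_spec hn v p j).trans_lt h1
  exact absurd (max_lt h1 h2) (not_lt.2 (rho2_le hn v p _ _ hj))

/-- the nearest side is the only side which can meet the ball -/
theorem ns_eq (hn : 3 ≤ n) (v : ZMod n → ℂ) (p : ℂ) {i : ZMod n} {x : ℂ} (hx : x ∈ ball p (rho2 v p))
    (hxi : x ∈ segment ℝ (v i) (v (i + 1))) : ns v p = i := by
  by_contra hcon
  exact Set.disjoint_left.1 (ball_disj hn v p i (Ne.symm hcon)) hx hxi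

/-- `B` is cut by side `i` into an inner part and an outer part; `σ` is the sign of the inner part -/
def Cut (P : Set ℂ) (v : ZMod n → ℂ) (i : ZMod n) (σ : ℝ) (B : Set ℂ) : Prop :=
  (σ = 1 ∨ σ = -1) ∧ ∀ z ∈ B,
    (0 < σ * cdet (v (i + 1) - v i) (z - v i) → z ∈ interior P) ∧
    (cdet (v (i + 1) - v i) (z - v i) = 0 → z ∈ openSegment ℝ (v i) (v (i + 1))) ∧
    (σ * cdet (v (i + 1) - v i) (z - v i) < 0 → z ∉ P)

theorem ball_cases {P : Set ℂ} {v : ZMod n → ℂ} (hP : IsPolygon P v) (p : ℂ) (hp : p ∈ P)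
    (hv : ∀ i, p ≠ v i) : ball p (rho2 v p) ⊆ interior P ∨
      ∃ σ, Cut P v (ns v p) σ (ball p (rho2 v p)) := by
  have hn := hP.three_le
  have hpos := rho2_pos hP p hv
  by_cases h : Disjoint (ball p (rho2 v p)) (segment ℝ (v (ns v p)) (v (ns v p + 1)))
  · left
    refine ball_inside hP p _ (fun j => ?_) (mem_ball_self hpos) hp
    by_cases hj : j = ns v p
    · rw [hj]; exact h
    · exact ball_disj hn v p j hj
  · right
    rw [Set.not_disjoint_iff] at h
    obtain ⟨x, hx, hxi⟩ := h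
    obtain ⟨σ, hσ, h1⟩ := ball_side hP (ns v p) p _ (ball_disj hn v p) hx hxi
    exact ⟨σ, hσ, fun z hz => ⟨(h1 z hz).1, fun h2 => line_in_side hP _ p _ (ball_disj hn v p) hx hxi hz h2,
      (h1 z hz).2⟩⟩

/-- folding across side `i` -/
noncomputable def fold (P : Set ℂ) (v : ZMod n → ℂ) (kap : ZMod n → ZMod N) (i : ZMod n)
    (x : ℂ × Fr N) : ℂ × Fr N :=
  open Classical in
  if x.1 ∈ interior P then x
  else if x.1 ∈ P then (x.1, if x.2.2 then rf kap i x.2 else x.2)
  else (mir v kap i x.1, rf kap i x.2)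

theorem fold_int {P : Set ℂ} {v : ZMod n → ℂ} {kap : ZMod n → ZMod N} {i : ZMod n} {z : ℂ} {g : Fr N}
    (h : z ∈ interior P) : fold P v kap i (z, g) = (z, g) := by
  unfold fold
  rw [if_pos h]

theorem fold_side {P : Set ℂ} {v : ZMod n → ℂ} {kap : ZMod n → ZMod N} {i : ZMod n} {z : ℂ} {g : Fr N}
    (h : z ∉ interior P) (h' : z ∈ P) :
    fold P v kap i (z, g) = (z, if g.2 then rf kap i g else g) := by
  unfold fold
  rw [if_neg h, if_pos h']

theorem fold_out {P : Set ℂ} {v : ZMod n → ℂ} {kap : ZMod n → ZMod N} {i : ZMod n} {z : ℂ} {g : Fr N}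
    (h : z ∉ P) : fold P v kap i (z, g) = (mir v kap i z, rf kap i g) := by
  unfold fold
  rw [if_neg fun h' => h (interior_subset h'), if_neg h]

/-- the sign of `p` in a cut ball -/
theorem Cut.nonneg {P : Set ℂ} {v : ZMod n → ℂ} {i : ZMod n} {σ : ℝ} {B : Set ℂ} (h : Cut P v i σ B)
    {p : ℂ} (hp : p ∈ P) (hpB : p ∈ B) : 0 ≤ σ * cdet (v (i + 1) - v i) (p - v i) := by
  by_contra hcon
  rw [not_le] at hcon
  exact (h.2 p hpB).2.2 hcon hp

theorem Cut.side {P : Set ℂ} {v : ZMod n → ℂ} (hP : IsPolygon P v) {i : ZMod n} {σ : ℝ} {B : Set ℂ}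
    (h : Cut P v i σ B) {z : ℂ} (hz : z ∈ B) (h0 : cdet (v (i + 1) - v i) (z - v i) = 0) :
    z ∈ openSegment ℝ (v i) (v (i + 1)) ∧ z ∈ P ∧ z ∉ interior P :=
  ⟨(h.2 z hz).2.1 h0, side_mem hP (openSegment_subset_segment _ _ _ ((h.2 z hz).2.1 h0))⟩

theorem Cut.zero_or {P : Set ℂ} {v : ZMod n → ℂ} {i : ZMod n} {σ : ℝ} {B : Set ℂ}
    (h : Cut P v i σ B) (z : ℂ) : 0 < σ * cdet (v (i + 1) - v i) (z - v i) ∨
      cdet (v (i + 1) - v i) (z - v i) = 0 ∨ σ * cdet (v (i + 1) - v i) (z - v i) < 0 := by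
  rcases lt_trichotomy (σ * cdet (v (i + 1) - v i) (z - v i)) 0 with h1 | h1 | h1
  · exact Or.inr (Or.inr h1)
  · refine Or.inr (Or.inl ?_)
    rcases mul_eq_zero.1 h1 with h2 | h2
    · rcases h.1 with h3 | h3 <;> rw [h3] at h2 <;> norm_num at h2
    · exact h2
  · exact Or.inl h1

theorem fold_mir {P : Set ℂ} {v : ZMod n → ℂ} {kap : ZMod n → ZMod N} (hP : IsPolygon P v)
    (hk : Par v kap) {i : ZMod n} {σ : ℝ} {B : Set ℂ} (h : Cut P v i σ B) {z : ℂ} (hz : z ∈ B)
    (hm : mir v kap i z ∈ B) (g : Fr N) :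
    fold P v kap i (mir v kap i z, rf kap i g) = fold P v kap i (z, g) := by
  have hc := cdet_mir hk i z
  rcases h.zero_or z with h1 | h1 | h1
  · rw [fold_int ((h.2 z hz).1 h1), fold_out ((h.2 _ hm).2.2 (by rw [hc]; linarith)), mir_mir, rf_rf]
  · obtain ⟨h2, h3, h4⟩ := h.side hP hz h1
    rw [mir_side hk i z (openSegment_subset_segment _ _ _ h2), fold_side h4 h3, fold_side h4 h3]
    have : (rf kap i g).2 = !g.2 := rfl
    rw [this, rf_rf]
    cases g.2 <;> simp
  · rw [fold_out ((h.2 z hz).2.2 h1), fold_int ((h.2 _ hm).1 (by rw [hc]; linarith))]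

/-- what folding does in the ball around a non-singular point -/
theorem fold_ok {P : Set ℂ} {v : ZMod n → ℂ} {kap : ZMod n → ZMod N} (hP : IsPolygon P v)
    (hk : Par v kap) (p : ℂ) (hp : p ∈ P) (hv : ∀ i, p ≠ v i) (z : ℂ) (hz : z ∈ ball p (rho2 v p))
    (g : Fr N) :
    (fold P v kap (ns v p) (z, g)).1 ∈ P ∧
    (∀ i, (fold P v kap (ns v p) (z, g)).1 ≠ v i) ∧
    ((fold P v kap (ns v p) (z, g)).1 ∉ interior P → (fold P v kap (ns v p) (z, g)).2.2 = false) ∧
    ‖(fold P v kap (ns v p) (z, g)).1 - p‖ ≤ ‖z - p‖ := by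
  have hn := hP.three_le
  have hpos := rho2_pos hP p hv
  have hvert : ∀ w ∈ ball p (rho2 v p), ∀ i, w ≠ v i := by
    intro w hw i hi
    have h1 := ns_eq hn v p hw (i := i) (by rw [hi]; exact left_mem_segment ℝ _ _)
    have h2 := ns_eq hn v p hw (i := i - 1) (by
      rw [hi]; simpa using right_mem_segment ℝ (v (i - 1)) (v (i - 1 + 1)))
    exact pred_ne hn i (h2.symm.trans h1)
  rcases ball_cases hP p hp hv with h | ⟨σ, h⟩
  · rw [fold_int (h hz)]
    exact ⟨interior_subset (h hz), hvert z hz, fun h' => absurd (h hz) h', le_rfl⟩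
  · have hne := Pool.Agent.H52W.side_ne_of_polygon hP (ns v p)
    rcases h.zero_or z with h1 | h1 | h1
    · have h2 := (h.2 z hz).1 h1
      rw [fold_int h2]
      exact ⟨interior_subset h2, hvert z hz, fun h' => absurd h2 h', le_rfl⟩
    · obtain ⟨h2, h3, h4⟩ := h.side hP hz h1
      rw [fold_side h4 h3]
      refine ⟨h3, hvert z hz, fun _ => ?_, le_rfl⟩
      cases hg : g.2 <;> simp [hg, rf]
    · rw [fold_out ((h.2 z hz).2.2 h1)]
      have h2 : ‖mir v kap (ns v p) z - p‖ ≤ ‖z - p‖ :=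
        norm_mir_sub_le hk _ hne p z σ h.1 (h.nonneg hp (mem_ball_self hpos)) h1.le
      have h3 : mir v kap (ns v p) z ∈ ball p (rho2 v p) := by
        rw [mem_ball, dist_eq_norm] at hz ⊢
        exact h2.trans_lt hz
      have h4 : mir v kap (ns v p) z ∈ interior P := (h.2 _ h3).1 (by rw [cdet_mir hk]; linarith)
      exact ⟨interior_subset h4, hvert _ h3, fun h' => absurd h4 h', h2⟩

/-- the non-singular points of the surface: a point `p` of `P` which is no vertex, with a frame; on the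
sides the frame preserves the orientation -/
@[ext]
structure SPt (P : Set ℂ) (v : ZMod n → ℂ) (N : ℕ) where
  p : ℂ
  g : Fr N
  mem : p ∈ P
  nv : ∀ i, p ≠ v i
  bit : p ∉ interior P → g.2 = false

/-- the folded point -/
noncomputable def mkf {P : Set ℂ} {v : ZMod n → ℂ} {kap : ZMod n → ZMod N} (hP : IsPolygon P v)
    (hk : Par v kap) (x : SPt P v N) (u : ℂ) (hu : ‖u‖ < rho2 v x.p) : SPt P v N where
  p := (fold P v kap (ns v x.p) (x.p + fr x.g u, x.g)).1
  g := (fold P v kap (ns v x.p) (x.p + fr x.g u, x.g)).2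
  mem := (fold_ok hP hk x.p x.mem x.nv _ (by
    rw [mem_ball, dist_eq_norm, add_sub_cancel_left, norm_fr]; exact hu) x.g).1
  nv := (fold_ok hP hk x.p x.mem x.nv _ (by
    rw [mem_ball, dist_eq_norm, add_sub_cancel_left, norm_fr]; exact hu) x.g).2.1
  bit := (fold_ok hP hk x.p x.mem x.nv _ (by
    rw [mem_ball, dist_eq_norm, add_sub_cancel_left, norm_fr]; exact hu) x.g).2.2.1

/-- translation by `u` -/
noncomputable def sadd {P : Set ℂ} {v : ZMod n → ℂ} {kap : ZMod n → ZMod N} (hP : IsPolygon P v)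
    (hk : Par v kap) (x : SPt P v N) (u : ℂ) : SPt P v N :=
  open Classical in if hu : ‖u‖ < rho2 v x.p then mkf hP hk x u hu else x

theorem sadd_eq {P : Set ℂ} {v : ZMod n → ℂ} {kap : ZMod n → ZMod N} (hP : IsPolygon P v)
    (hk : Par v kap) (x : SPt P v N) (u : ℂ) (hu : ‖u‖ < rho2 v x.p) :
    ((sadd hP hk x u).p, (sadd hP hk x u).g) =
      fold P v kap (ns v x.p) (x.p + fr x.g u, x.g) := by
  unfold sadd
  rw [dif_pos hu]
  rfl

theorem ball_fr {p : ℂ} {g : Fr N} {u : ℂ} {r : ℝ} (hu : ‖u‖ < r) :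
    p + fr g u ∈ ball p r := by
  rw [mem_ball, dist_eq_norm, add_sub_cancel_left, norm_fr]
  exact hu

theorem sadd_dist {P : Set ℂ} {v : ZMod n → ℂ} {kap : ZMod n → ZMod N} (hP : IsPolygon P v)
    (hk : Par v kap) (x : SPt P v N) (u : ℂ) : ‖(sadd hP hk x u).p - x.p‖ ≤ ‖u‖ := by
  by_cases hu : ‖u‖ < rho2 v x.p
  · have h := (fold_ok hP hk x.p x.mem x.nv _ (ball_fr (g := x.g) hu) x.g).2.2.2
    rw [← sadd_eq hP hk x u hu, add_sub_cancel_left, norm_fr] at h
    exact h
  · unfold sadd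
    rw [dif_neg hu, sub_self, norm_zero]
    exact norm_nonneg u

/-- folding near two points of the same ball -/
theorem fold_ns {P : Set ℂ} {v : ZMod n → ℂ} {kap : ZMod n → ZMod N} (hP : IsPolygon P v)
    {i : ZMod n} {σ : ℝ} {c : ℂ} {r : ℝ} (h : Cut P v i σ (ball c r)) {p z : ℂ} (hp : p ∈ P)
    (hpB : p ∈ ball c r) (hzB : z ∈ ball c r) (hz : z ∈ ball p (rho2 v p)) (hpos : 0 < rho2 v p)
    (g : Fr N) : fold P v kap (ns v p) (z, g) = fold P v kap i (z, g) := by
  by_cases hi : z ∈ interior P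
  · rw [fold_int hi, fold_int hi]
  · have hσp := h.nonneg hp hpB
    have hσz : σ * cdet (v (i + 1) - v i) (z - v i) ≤ 0 := by
      by_contra hcon
      rw [not_le] at hcon
      exact hi ((h.2 z hzB).1 hcon)
    -- a point of the line between `p` and `z`
    have hns : ns v p = i := by
      obtain ⟨t, ht0, ht1, ht⟩ : ∃ t : ℝ, 0 ≤ t ∧ t ≤ 1 ∧
          cdet (v (i + 1) - v i) (p + (t : ℂ) * (z - p) - v i) = 0 := by
        set A := σ * cdet (v (i + 1) - v i) (p - v i) with hA
        set B := σ * cdet (v (i + 1) - v i) (z - v i) with hB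
        have hlin : ∀ t : ℝ, σ * cdet (v (i + 1) - v i) (p + (t : ℂ) * (z - p) - v i)
            = A + t * (B - A) := by
          intro t
          have e : p + (t : ℂ) * (z - p) - v i = (p - v i) + (t : ℂ) * ((z - v i) - (p - v i)) := by ring
          rw [e, cdet_add, cdet_real, cdet_sub _ (z - v i) (p - v i), hA, hB]; ring
        have hσ0 : σ ≠ 0 := by
          rcases h.1 with h3 | h3 <;> rw [h3] <;> norm_num
        rcases eq_or_lt_of_le hσp with h0 | h0
        · refine ⟨0, le_rfl, zero_le_one, ?_⟩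
          have := hlin 0
          rw [← h0, zero_mul, add_zero] at this
          exact (mul_eq_zero.1 this).resolve_left hσ0
        · have hAB : 0 < A - B := by linarith
          refine ⟨A / (A - B), by positivity, by rw [div_le_one hAB]; linarith, ?_⟩
          have := hlin (A / (A - B))
          have e : A + A / (A - B) * (B - A) = 0 := by
            field_simp
            ring
          rw [e] at this
          exact (mul_eq_zero.1 this).resolve_left hσ0
      have hconv : ∀ (c : ℂ) (r : ℝ), p ∈ ball c r → z ∈ ball c r → p + (t : ℂ) * (z - p) ∈ ball c r := by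
        intro c r h1 h2
        have := (convex_ball c r) h1 h2 (sub_nonneg.2 ht1) ht0 (by ring)
        have e : (1 - t) • p + t • z = p + (t : ℂ) * (z - p) := by
          simp only [Complex.real_smul]; push_cast; ring
        rwa [e] at this
      have h1 := (h.2 _ (hconv c r hpB hzB)).2.1 ht
      exact ns_eq hP.three_le v p (hconv p _ (mem_ball_self hpos) hz) (openSegment_subset_segment _ _ _ h1)
    rw [hns]

theorem sadd_zero {P : Set ℂ} {v : ZMod n → ℂ} {kap : ZMod n → ZMod N} (hP : IsPolygon P v)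
    (hk : Par v kap) (x : SPt P v N) : sadd hP hk x 0 = x := by
  have hpos := rho2_pos hP x.p x.nv
  have h := sadd_eq hP hk x 0 (by rw [norm_zero]; exact hpos)
  rw [fr_zero, add_zero] at h
  have h2 : fold P v kap (ns v x.p) (x.p, x.g) = (x.p, x.g) := by
    by_cases hi : x.p ∈ interior P
    · exact fold_int hi
    · rw [fold_side hi x.mem, x.bit hi]; simp
  rw [h2] at h
  exact SPt.ext (congrArg Prod.fst h) (congrArg Prod.snd h)

theorem sadd_rho {P : Set ℂ} {v : ZMod n → ℂ} {kap : ZMod n → ZMod N} (hP : IsPolygon P v)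
    (hk : Par v kap) (x : SPt P v N) (u : ℂ) :
    rho2 v x.p - ‖u‖ ≤ rho2 v (sadd hP hk x u).p := by
  have h1 := sadd_dist hP hk x u
  have h2 := rho2_le_add hP.three_le v x.p (sadd hP hk x u).p
  rw [norm_sub_rev] at h1
  linarith

theorem sadd_add {P : Set ℂ} {v : ZMod n → ℂ} {kap : ZMod n → ZMod N} (hP : IsPolygon P v)
    (hk : Par v kap) (x : SPt P v N) (u u' : ℂ) (hu : ‖u‖ + ‖u'‖ < rho2 v x.p) :
    sadd hP hk (sadd hP hk x u) u' = sadd hP hk x (u + u') := by
  have hpos := rho2_pos hP x.p x.nv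
  have hu1 : ‖u‖ < rho2 v x.p := by linarith [norm_nonneg u']
  have hu2 : ‖u + u'‖ < rho2 v x.p := (norm_add_le _ _).trans_lt hu
  have hr := sadd_rho hP hk x u
  have hd := sadd_dist hP hk x u
  have hu3 : ‖u'‖ < rho2 v (sadd hP hk x u).p := by linarith
  set y := sadd hP hk x u with hy
  have hpos' := rho2_pos hP y.p y.nv
  have e1 := sadd_eq hP hk x u hu1
  rw [← hy] at e1
  have e2 := sadd_eq hP hk x (u + u') hu2
  have e3 := sadd_eq hP hk y u' hu3
  -- it suffices to compare the folded points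
  suffices hs : fold P v kap (ns v y.p) (y.p + fr y.g u', y.g) =
      fold P v kap (ns v x.p) (x.p + fr x.g (u + u'), x.g) by
    rw [← e3, ← e2] at hs
    exact SPt.ext (congrArg Prod.fst hs) (congrArg Prod.snd hs)
  have hw : x.p + fr x.g u ∈ ball x.p (rho2 v x.p) := ball_fr hu1
  have hW : x.p + fr x.g (u + u') ∈ ball x.p (rho2 v x.p) := ball_fr hu2
  have hyB : y.p ∈ ball x.p (rho2 v x.p) := by
    rw [mem_ball, dist_eq_norm]; exact hd.trans_lt hu1
  have hzB : y.p + fr y.g u' ∈ ball y.p (rho2 v y.p) := ball_fr hu3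
  have hWe : x.p + fr x.g (u + u') = (x.p + fr x.g u) + fr x.g u' := by rw [fr_add]; ring
  rcases ball_cases hP x.p x.mem x.nv with h | ⟨σ, h⟩
  · -- everything inside
    rw [fold_int (h hw)] at e1
    have ep : y.p = x.p + fr x.g u := congrArg Prod.fst e1
    have eg : y.g = x.g := congrArg Prod.snd e1
    have hin : y.p + fr y.g u' = x.p + fr x.g (u + u') := by rw [ep, eg, hWe]
    rw [hin, eg, fold_int (h hW), fold_int (h hW)]
  · have hne := Pool.Agent.H52W.side_ne_of_polygon hP (ns v x.p)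
    -- the unfolded case
    have hcase1 : y.p = x.p + fr x.g u → y.g = x.g →
        fold P v kap (ns v y.p) (y.p + fr y.g u', y.g) =
          fold P v kap (ns v x.p) (x.p + fr x.g (u + u'), x.g) := by
      intro ep eg
      have hin : y.p + fr y.g u' = x.p + fr x.g (u + u') := by rw [ep, eg, hWe]
      rw [fold_ns hP h y.mem hyB (by rw [hin]; exact hW) hzB hpos', hin, eg]
    -- the folded case
    have hcase2 : σ * cdet (v (ns v x.p + 1) - v (ns v x.p)) (x.p + fr x.g u - v (ns v x.p)) ≤ 0 →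
        y.p = mir v kap (ns v x.p) (x.p + fr x.g u) → y.g = rf kap (ns v x.p) x.g →
        fold P v kap (ns v y.p) (y.p + fr y.g u', y.g) =
          fold P v kap (ns v x.p) (x.p + fr x.g (u + u'), x.g) := by
      intro hs ep eg
      have hin : y.p + fr y.g u' = mir v kap (ns v x.p) (x.p + fr x.g (u + u')) := by
        rw [ep, eg, hWe, mir_add v kap _ x.g (x.p + fr x.g u) u']
      have hmB : mir v kap (ns v x.p) (x.p + fr x.g (u + u')) ∈ ball x.p (rho2 v x.p) := by
        rw [← hin, mem_ball, dist_eq_norm]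
        calc ‖y.p + fr y.g u' - x.p‖ = ‖(y.p - x.p) + fr y.g u'‖ := by congr 1; ring
          _ ≤ ‖y.p - x.p‖ + ‖fr y.g u'‖ := norm_add_le _ _
          _ ≤ ‖u‖ + ‖u'‖ := by rw [norm_fr]; linarith
          _ < _ := hu
      rw [fold_ns hP h y.mem hyB (by rw [hin]; exact hmB) hzB hpos', hin, eg]
      exact fold_mir hP hk h hW hmB x.g
    rcases h.zero_or (x.p + fr x.g u) with h1 | h1 | h1
    · rw [fold_int ((h.2 _ hw).1 h1)] at e1
      exact hcase1 (congrArg Prod.fst e1) (congrArg Prod.snd e1)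
    · obtain ⟨h2, h3, h4⟩ := h.side hP hw h1
      rw [fold_side h4 h3] at e1
      cases hg : x.g.2
      · simp only [hg] at e1
        exact hcase1 (congrArg Prod.fst e1) (congrArg Prod.snd e1)
      · simp only [hg] at e1
        refine hcase2 (by rw [h1, mul_zero]) ?_ (congrArg Prod.snd e1)
        rw [mir_side hk _ _ (openSegment_subset_segment _ _ _ h2)]
        exact congrArg Prod.fst e1
    · rw [fold_out ((h.2 _ hw).2.2 h1)] at e1
      exact hcase2 h1.le (congrArg Prod.fst e1) (congrArg Prod.snd e1)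

/-- the translation surface of a polygon -/
noncomputable def surf {P : Set ℂ} {v : ZMod n → ℂ} {kap : ZMod n → ZMod N} (hP : IsPolygon P v)
    (hk : Par v kap) : H32D.TS (SPt P v N) where
  rho x := rho2 v x.p
  add := sadd hP hk
  rho_pos x := rho2_pos hP x.p x.nv
  add_zero := sadd_zero hP hk
  rho_add x u _ := sadd_rho hP hk x u
  add_add x u u' h := sadd_add hP hk x u u' h

end

end Pool.Agent.Lib.H45Z
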