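import Mathlib
import Pool.Agent.Lib.H45Z.Surf

/-!
# MP_273810_co: the translation surface of a polygon, part 2 (library H45Z, helper45)

The coordinate `D`, the local form of the translations, the isometries given by right multiplication of
the frames.
-/

open Set Metric Filter Topology

namespace Pool.Agent.Lib.H45Z

open Pool.Agent.Lib.H42I (IsPolygon)
open Pool.Agent.H52W (cdet curve Inside)
open Pool.Agent.Lib.H23D (E)

section
variable {n N : ℕ} [NeZero N]

/-- the inverse of `fr g` -/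
noncomputable def fri (g : Fr N) (z : ℂ) : ℂ :=
  if g.2 then (starRingEnd ℂ) (E (-g.1) * z) else E (-g.1) * z

theorem fri_fr (g : Fr N) (u : ℂ) : fri g (fr g u) = u := by
  unfold fri fr
  split_ifs with h
  · rw [← mul_assoc, ← Pool.Agent.Lib.H23D.E_add, neg_add_cancel, Pool.Agent.Lib.H23D.E_zero, one_mul,
      Complex.conj_conj]
  · rw [← mul_assoc, ← Pool.Agent.Lib.H23D.E_add, neg_add_cancel, Pool.Agent.Lib.H23D.E_zero, one_mul]

theorem fr_fri (g : Fr N) (z : ℂ) : fr g (fri g z) = z := by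
  unfold fri fr
  split_ifs with h
  · rw [Complex.conj_conj, ← mul_assoc, ← Pool.Agent.Lib.H23D.E_add, add_neg_cancel,
      Pool.Agent.Lib.H23D.E_zero, one_mul]
  · rw [← mul_assoc, ← Pool.Agent.Lib.H23D.E_add, add_neg_cancel, Pool.Agent.Lib.H23D.E_zero, one_mul]

theorem fri_add (g : Fr N) (z w : ℂ) : fri g (z + w) = fri g z + fri g w := by
  apply fr_injective g
  rw [fr_add, fr_fri, fr_fri, fr_fri]

/-- the coordinate `g⁻¹ p` -/
noncomputable def Dc {P : Set ℂ} {v : ZMod n → ℂ} (x : SPt P v N) : ℂ := fri x.g x.p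

/-- the translation part of the reflection in side `i` -/
noncomputable def cst (v : ZMod n → ℂ) (kap : ZMod n → ZMod N) (i : ZMod n) : ℂ :=
  v i - E (2 * kap i) * (starRingEnd ℂ) (v i)

theorem fri_mir (v : ZMod n → ℂ) (kap : ZMod n → ZMod N) (i : ZMod n) (g : Fr N) (z : ℂ) :
    fri (rf kap i g) (mir v kap i z) = fri g z + fri (rf kap i g) (cst v kap i) := by
  apply fr_injective (rf kap i g)
  rw [fr_add, fr_fri, fr_fri, fr_rf, fr_fri]
  unfold mir cst
  rw [map_sub]; ring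

theorem Dc_sadd {P : Set ℂ} {v : ZMod n → ℂ} {kap : ZMod n → ZMod N} (hP : IsPolygon P v)
    (hk : Par v kap) (x : SPt P v N) (u : ℂ) (hu : ‖u‖ < rho2 v x.p) :
    Dc (sadd hP hk x u) - Dc x - u = 0 ∨
      ∃ i, Dc (sadd hP hk x u) - Dc x - u = fri (rf kap i x.g) (cst v kap i) := by
  have e1 := sadd_eq hP hk x u hu
  have hD : fri x.g (x.p + fr x.g u) = Dc x + u := by rw [fri_add, fri_fr]; rfl
  have hfin : ∀ (z : ℂ) (g : Fr N), ((sadd hP hk x u).p, (sadd hP hk x u).g) = (z, g) →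
      Dc (sadd hP hk x u) = fri g z := by
    intro z g h
    unfold Dc
    rw [show (sadd hP hk x u).p = z from congrArg Prod.fst h,
      show (sadd hP hk x u).g = g from congrArg Prod.snd h]
  by_cases h1 : x.p + fr x.g u ∈ interior P
  · left
    rw [fold_int h1] at e1
    rw [hfin _ _ e1, hD]; ring
  by_cases h2 : x.p + fr x.g u ∈ P
  · rw [fold_side h1 h2] at e1
    rcases ball_cases hP x.p x.mem x.nv with h | ⟨σ, h⟩
    · exact absurd (h (ball_fr hu)) h1
    have hcd : cdet (v (ns v x.p + 1) - v (ns v x.p)) (x.p + fr x.g u - v (ns v x.p)) = 0 := by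
      rcases h.zero_or (x.p + fr x.g u) with h3 | h3 | h3
      · exact absurd ((h.2 _ (ball_fr hu)).1 h3) h1
      · exact h3
      · exact absurd h2 ((h.2 _ (ball_fr hu)).2.2 h3)
    have hs := (h.side hP (ball_fr hu) hcd).1
    cases hg : x.g.2
    · left
      simp only [hg] at e1
      rw [hfin _ _ e1]
      simp only [Bool.false_eq_true, if_false]
      rw [hD]; ring
    · right
      simp only [hg] at e1
      refine ⟨ns v x.p, ?_⟩
      rw [hfin _ _ e1]
      simp only [if_true]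
      have h3 := fri_mir v kap (ns v x.p) x.g (x.p + fr x.g u)
      rw [mir_side hk _ _ (openSegment_subset_segment _ _ _ hs), hD] at h3
      rw [h3]; ring
  · right
    rw [fold_out h2] at e1
    refine ⟨ns v x.p, ?_⟩
    rw [hfin _ _ e1, fri_mir, hD]; ring

/-- complex numbers with coordinates in `K` -/
def KK (K : Subfield ℝ) : Set ℂ := {z | z.re ∈ K ∧ z.im ∈ K}

theorem KK_zero (K : Subfield ℝ) : (0 : ℂ) ∈ KK K := ⟨K.zero_mem, K.zero_mem⟩

theorem KK_add {K : Subfield ℝ} {a b : ℂ} (ha : a ∈ KK K) (hb : b ∈ KK K) : a + b ∈ KK K :=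
  ⟨K.add_mem ha.1 hb.1, K.add_mem ha.2 hb.2⟩

theorem KK_sub {K : Subfield ℝ} {a b : ℂ} (ha : a ∈ KK K) (hb : b ∈ KK K) : a - b ∈ KK K :=
  ⟨K.sub_mem ha.1 hb.1, K.sub_mem ha.2 hb.2⟩

theorem KK_neg {K : Subfield ℝ} {a : ℂ} (ha : a ∈ KK K) : -a ∈ KK K :=
  ⟨K.neg_mem ha.1, K.neg_mem ha.2⟩

theorem KK_mul {K : Subfield ℝ} {a b : ℂ} (ha : a ∈ KK K) (hb : b ∈ KK K) : a * b ∈ KK K := by
  constructor
  · rw [Complex.mul_re]
    exact K.sub_mem (K.mul_mem ha.1 hb.1) (K.mul_mem ha.2 hb.2)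
  · rw [Complex.mul_im]
    exact K.add_mem (K.mul_mem ha.1 hb.2) (K.mul_mem ha.2 hb.1)

theorem KK_conj {K : Subfield ℝ} {a : ℂ} (ha : a ∈ KK K) : (starRingEnd ℂ) a ∈ KK K :=
  ⟨by rw [Complex.conj_re]; exact ha.1, by rw [Complex.conj_im]; exact K.neg_mem ha.2⟩

theorem KK_real {K : Subfield ℝ} {a : ℝ} (ha : a ∈ K) : (a : ℂ) ∈ KK K :=
  ⟨by rw [Complex.ofReal_re]; exact ha, by rw [Complex.ofReal_im]; exact K.zero_mem⟩

theorem KK_I {K : Subfield ℝ} : Complex.I ∈ KK K :=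
  ⟨by rw [Complex.I_re]; exact K.zero_mem, by rw [Complex.I_im]; exact K.one_mem⟩

theorem KK_fri {K : Subfield ℝ} (hE : ∀ a : ZMod N, E a ∈ KK K) (g : Fr N) {z : ℂ} (hz : z ∈ KK K) :
    fri g z ∈ KK K := by
  unfold fri
  split_ifs
  · exact KK_conj (KK_mul (hE _) hz)
  · exact KK_mul (hE _) hz

theorem KK_fr {K : Subfield ℝ} (hE : ∀ a : ZMod N, E a ∈ KK K) (g : Fr N) {z : ℂ} (hz : z ∈ KK K) :
    fr g z ∈ KK K := by
  unfold fr
  split_ifs
  · exact KK_mul (hE _) (KK_conj hz)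
  · exact KK_mul (hE _) hz

/-- the translation part is `2 i h E (kap i)` with the support number `h` -/
theorem cst_eq (v : ZMod n → ℂ) (kap : ZMod n → ZMod N) (i : ZMod n) :
    cst v kap i = ((2 * Pool.Agent.Lib.H23D.cr (E (kap i)) (v i) : ℝ) : ℂ) * (Complex.I * E (kap i)) := by
  set e := E (kap i) with he
  have hee : (starRingEnd ℂ) e * e = 1 := by
    rw [he, Pool.Agent.Lib.H23D.E_conj, ← Pool.Agent.Lib.H23D.E_add, neg_add_cancel,
      Pool.Agent.Lib.H23D.E_zero]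
  have h2 : E (2 * kap i) = e * e := by
    rw [he, ← Pool.Agent.Lib.H23D.E_add]; congr 1; ring
  unfold cst
  rw [h2, Pool.Agent.Lib.H23D.cr_eq]
  set a := (starRingEnd ℂ) e * v i with ha
  have hza : v i = e * a := by
    rw [ha, ← mul_assoc, mul_comm e, hee, one_mul]
  rw [hza, map_mul]
  have h3 : e * a - e * e * ((starRingEnd ℂ) e * (starRingEnd ℂ) a) = e * (a - (starRingEnd ℂ) a) := by
    linear_combination -(e * (starRingEnd ℂ) a) * hee
  rw [h3]
  have h4 : a - (starRingEnd ℂ) a = ((2 * a.im : ℝ) : ℂ) * Complex.I := by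
    apply Complex.ext <;> simp; ring
  rw [h4]; ring

theorem KK_cst {K : Subfield ℝ} (hE : ∀ a : ZMod N, E a ∈ KK K) {v : ZMod n → ℂ} {kap : ZMod n → ZMod N}
    (hh : ∀ i, Pool.Agent.Lib.H23D.cr (E (kap i)) (v i) ∈ K) (i : ZMod n) : cst v kap i ∈ KK K := by
  rw [cst_eq]
  exact KK_mul (KK_real (K.mul_mem (by norm_num) (hh i))) (KK_mul KK_I (hE _))

/-- `D (add x u) = D x + u` up to the countable set `KK K` -/
theorem Dc_KK {K : Subfield ℝ} (hE : ∀ a : ZMod N, E a ∈ KK K) {P : Set ℂ} {v : ZMod n → ℂ}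
    {kap : ZMod n → ZMod N} (hh : ∀ i, Pool.Agent.Lib.H23D.cr (E (kap i)) (v i) ∈ K)
    (hP : IsPolygon P v) (hk : Par v kap) (x : SPt P v N) (u : ℂ) (hu : ‖u‖ < rho2 v x.p) :
    Dc (sadd hP hk x u) - Dc x - u ∈ KK K := by
  rcases Dc_sadd hP hk x u hu with h | ⟨i, h⟩
  · rw [h]; exact KK_zero K
  · rw [h]; exact KK_fri hE _ (KK_cst hE hh i)

/-! ### local form -/

theorem sadd_int {P : Set ℂ} {v : ZMod n → ℂ} {kap : ZMod n → ZMod N} (hP : IsPolygon P v)
    (hk : Par v kap) (x : SPt P v N) (u : ℂ) (hu : ‖u‖ < rho2 v x.p) (h : x.p + fr x.g u ∈ interior P) :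
    (sadd hP hk x u).p = x.p + fr x.g u ∧ (sadd hP hk x u).g = x.g := by
  have e1 := sadd_eq hP hk x u hu
  rw [fold_int h] at e1
  exact ⟨congrArg Prod.fst e1, congrArg Prod.snd e1⟩

theorem sadd_side {P : Set ℂ} {v : ZMod n → ℂ} {kap : ZMod n → ZMod N} (hP : IsPolygon P v)
    (hk : Par v kap) (x : SPt P v N) (u : ℂ) (hu : ‖u‖ < rho2 v x.p) (h : x.p + fr x.g u ∈ P)
    (h' : x.p + fr x.g u ∉ interior P) :
    (sadd hP hk x u).p = x.p + fr x.g u ∧
      (sadd hP hk x u).g = if x.g.2 then rf kap (ns v x.p) x.g else x.g := by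
  have e1 := sadd_eq hP hk x u hu
  rw [fold_side h' h] at e1
  exact ⟨congrArg Prod.fst e1, congrArg Prod.snd e1⟩

theorem sadd_out {P : Set ℂ} {v : ZMod n → ℂ} {kap : ZMod n → ZMod N} (hP : IsPolygon P v)
    (hk : Par v kap) (x : SPt P v N) (u : ℂ) (hu : ‖u‖ < rho2 v x.p) (h : x.p + fr x.g u ∉ P) :
    (sadd hP hk x u).p = mir v kap (ns v x.p) x.p + fr (rf kap (ns v x.p) x.g) u ∧
      (sadd hP hk x u).g = rf kap (ns v x.p) x.g := by
  have e1 := sadd_eq hP hk x u hu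
  rw [fold_out h] at e1
  refine ⟨?_, congrArg Prod.snd e1⟩
  rw [← mir_add]
  exact congrArg Prod.fst e1

/-- at a point of an open side -/
theorem ns_open {P : Set ℂ} {v : ZMod n → ℂ} (hP : IsPolygon P v) {i : ZMod n} {p : ℂ}
    (hp : p ∈ openSegment ℝ (v i) (v (i + 1))) : ns v p = i ∧ 0 < rho2 v p ∧
      ∃ σ, Cut P v i σ (ball p (rho2 v p)) := by
  have hv : ∀ k, p ≠ v k := fun k h => Pool.Agent.H52W.not_vertex_of_open hP i p hp k h.symm
  have hpos := rho2_pos hP p hv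
  have hps := openSegment_subset_segment _ _ _ hp
  have h1 := ns_eq hP.three_le v p (mem_ball_self hpos) hps
  refine ⟨h1, hpos, ?_⟩
  rcases ball_cases hP p (side_mem hP hps).1 hv with h | ⟨σ, h⟩
  · exact absurd (h (mem_ball_self hpos)) (side_mem hP hps).2
  · rw [h1] at h; exact ⟨σ, h⟩

/-! ### isometries -/

/-- right multiplication of the frame by a rotation -/
def rot (h : ZMod N) (g : Fr N) : Fr N := (if g.2 then g.1 - h else g.1 + h, g.2)

theorem fr_rot (h : ZMod N) (g : Fr N) (u : ℂ) : fr (rot h g) u = fr g (E h * u) := by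
  unfold fr rot
  cases hg : g.2
  · simp only [Bool.false_eq_true, if_false]
    rw [Pool.Agent.Lib.H23D.E_add]; ring
  · simp only [if_true]
    rw [map_mul, Pool.Agent.Lib.H23D.E_conj, sub_eq_add_neg, Pool.Agent.Lib.H23D.E_add]; ring

theorem rf_rot (kap : ZMod n → ZMod N) (i : ZMod n) (h : ZMod N) (g : Fr N) :
    rf kap i (rot h g) = rot h (rf kap i g) := by
  unfold rf rot
  cases hg : g.2 <;> simp <;> ring

/-- right multiplication of the frame by complex conjugation -/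
def flp (g : Fr N) : Fr N := (g.1, !g.2)

theorem fr_flp (g : Fr N) (u : ℂ) : fr (flp g) u = fr g ((starRingEnd ℂ) u) := by
  unfold fr flp
  cases hg : g.2 <;> simp

theorem rf_flp (kap : ZMod n → ZMod N) (i : ZMod n) (g : Fr N) :
    rf kap i (flp g) = flp (rf kap i g) := by
  unfold rf flp
  cases hg : g.2 <;> simp

theorem fold_rot {P : Set ℂ} {v : ZMod n → ℂ} {kap : ZMod n → ZMod N} {i : ZMod n} {z : ℂ} {g : Fr N}
    (h : ZMod N) : fold P v kap i (z, rot h g) = ((fold P v kap i (z, g)).1, rot h (fold P v kap i (z, g)).2) := by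
  by_cases h1 : z ∈ interior P
  · rw [fold_int h1, fold_int h1]
  by_cases h2 : z ∈ P
  · rw [fold_side h1 h2, fold_side h1 h2, rf_rot]
    have : (rot h g).2 = g.2 := rfl
    rw [this]
    cases hg : g.2 <;> simp
  · rw [fold_out h2, fold_out h2, rf_rot]

/-- the rotation of the surface -/
def Rot {P : Set ℂ} {v : ZMod n → ℂ} (h : ZMod N) (x : SPt P v N) : SPt P v N :=
  ⟨x.p, rot h x.g, x.mem, x.nv, x.bit⟩

theorem sadd_Rot {P : Set ℂ} {v : ZMod n → ℂ} {kap : ZMod n → ZMod N} (hP : IsPolygon P v)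
    (hk : Par v kap) (h : ZMod N) (x : SPt P v N) (u : ℂ) (hu : ‖u‖ < rho2 v x.p) :
    sadd hP hk (Rot h x) u = Rot h (sadd hP hk x (E h * u)) := by
  have hu' : ‖E h * u‖ < rho2 v x.p := by rw [norm_mul, norm_E, one_mul]; exact hu
  have e1 := sadd_eq hP hk (Rot h x) u hu
  have e2 := sadd_eq hP hk x (E h * u) hu'
  have e3 : ((Rot h x).p + fr (Rot h x).g u, (Rot h x).g) = (x.p + fr x.g (E h * u), rot h x.g) := by
    show (x.p + fr (rot h x.g) u, rot h x.g) = _
    rw [fr_rot]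
  have e4 : (Rot h x).p = x.p := rfl
  rw [e3, e4, fold_rot, ← e2] at e1
  exact SPt.ext (congrArg Prod.fst e1) (congrArg Prod.snd e1)

end

end Pool.Agent.Lib.H45Z
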