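import Mathlib
import Pool.Agent.Lib.H45Z.Surf2

/-!
# MP_273810_co: translations of the surface of a polygon are injective (library H45Z, helper45)
-/

open Set Metric Filter Topology

namespace Pool.Agent.Lib.H45Z

open Pool.Agent.Lib.H42I (IsPolygon)
open Pool.Agent.H52W (cdet curve Inside)
open Pool.Agent.Lib.H23D (E)

section
variable {n N : ℕ} [NeZero N]

theorem fold_inj {P : Set ℂ} {v : ZMod n → ℂ} {kap : ZMod n → ZMod N} (hP : IsPolygon P v)
    (hk : Par v kap) (p : ℂ) (hp : p ∈ P) (hv : ∀ i, p ≠ v i) (z z' : ℂ) (hz : z ∈ ball p (rho2 v p))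
    (hz' : z' ∈ ball p (rho2 v p)) (g : Fr N)
    (h : fold P v kap (ns v p) (z, g) = fold P v kap (ns v p) (z', g)) : z = z' := by
  rcases ball_cases hP p hp hv with hb | ⟨σ, hb⟩
  · rw [fold_int (hb hz), fold_int (hb hz')] at h
    exact congrArg Prod.fst h
  -- a point of the ball and the outside
  have key : ∀ z z' : ℂ, z ∈ ball p (rho2 v p) → z' ∈ ball p (rho2 v p) → z ∈ P → z' ∉ P →
      fold P v kap (ns v p) (z, g) = fold P v kap (ns v p) (z', g) → z = z' := by
    intro z z' hz hz' h1 h2 h
    rw [fold_out h2] at h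
    by_cases h3 : z ∈ interior P
    · rw [fold_int h3] at h
      have h4 : g.2 = !g.2 := congrArg (fun x => x.2.2) h
      cases hg : g.2 <;> rw [hg] at h4 <;> simp at h4
    · rw [fold_side h3 h1] at h
      have h4 : z = mir v kap (ns v p) z' := congrArg Prod.fst h
      have hcd : cdet (v (ns v p + 1) - v (ns v p)) (z - v (ns v p)) = 0 := by
        rcases hb.zero_or z with h5 | h5 | h5
        · exact absurd ((hb.2 z hz).1 h5) h3
        · exact h5
        · exact absurd h1 ((hb.2 z hz).2.2 h5)
      have h6 := (hb.side hP hz hcd).1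
      have h7 := mir_side hk _ _ (openSegment_subset_segment _ _ _ h6)
      have h8 : mir v kap (ns v p) z = mir v kap (ns v p) (mir v kap (ns v p) z') := by rw [← h4]
      rw [mir_mir, h7] at h8
      exact h8
  by_cases h1 : z ∈ P
  · by_cases h2 : z' ∈ P
    · have hf : ∀ w : ℂ, w ∈ P → (fold P v kap (ns v p) (w, g)).1 = w := by
        intro w hw
        by_cases h3 : w ∈ interior P
        · rw [fold_int h3]
        · rw [fold_side h3 hw]
      have := congrArg Prod.fst h
      rwa [hf z h1, hf z' h2] at this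
    · exact key z z' hz hz' h1 h2 h
  · by_cases h2 : z' ∈ P
    · exact (key z' z hz' hz h2 h1 h.symm).symm
    · rw [fold_out h1, fold_out h2] at h
      have h3 : mir v kap (ns v p) z = mir v kap (ns v p) z' := congrArg Prod.fst h
      have h4 := congrArg (mir v kap (ns v p)) h3
      rwa [mir_mir, mir_mir] at h4

theorem sadd_inj0 {P : Set ℂ} {v : ZMod n → ℂ} {kap : ZMod n → ZMod N} (hP : IsPolygon P v)
    (hk : Par v kap) (x : SPt P v N) (u w : ℂ) (hu : ‖u‖ < rho2 v x.p) (hw : ‖w‖ < rho2 v x.p)
    (h : sadd hP hk x u = sadd hP hk x w) : u = w := by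
  have e1 := sadd_eq hP hk x u hu
  have e2 := sadd_eq hP hk x w hw
  rw [h, e2] at e1
  have := fold_inj hP hk x.p x.mem x.nv _ _ (ball_fr hw) (ball_fr hu) x.g e1
  exact (fr_injective x.g (add_left_cancel this)).symm

end

end Pool.Agent.Lib.H45Z
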