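import Mathlib
import Pool.Agent.Lib.H45Z.Inj

/-!
# MP_273810_co: the reflection symmetries of the surface of a polygon (library H45Z, helper45)
-/

open Set Metric Filter Topology

namespace Pool.Agent.Lib.H45Z

open Pool.Agent.Lib.H42I (IsPolygon)
open Pool.Agent.H52W (cdet curve Inside)
open Pool.Agent.Lib.H23D (E)

section
variable {n N : ℕ} [NeZero N]

/-- right multiplication of a frame by the reflection `u ↦ E a * conj u` -/
def rfl' (a : ZMod N) (g : Fr N) : Fr N := flp (rot a g)

omit [NeZero N] in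
theorem rfl'_eq (a : ZMod N) (g : Fr N) : rfl' a g = (if g.2 then g.1 - a else g.1 + a, !g.2) := rfl

theorem fr_rfl' (a : ZMod N) (g : Fr N) (u : ℂ) :
    fr (rfl' a g) u = fr g (E a * (starRingEnd ℂ) u) := by
  unfold rfl'
  rw [fr_flp, fr_rot]

theorem rf_rfl' (kap : ZMod n → ZMod N) (i : ZMod n) (a : ZMod N) (g : Fr N) :
    rf kap i (rfl' a g) = rfl' a (rf kap i g) := by
  unfold rfl'
  rw [rf_flp, rf_rot]

omit [NeZero N] in
theorem rfl'_rfl' (a : ZMod N) (g : Fr N) : rfl' a (rfl' a g) = g := by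
  unfold rfl' flp rot
  cases hg : g.2
  · ext <;> simp [hg]
  · ext <;> simp [hg]

omit [NeZero N] in
theorem rfl'_bit (a : ZMod N) (g : Fr N) : (rfl' a g).2 = !g.2 := rfl

theorem fold_fst_snd {P : Set ℂ} {v : ZMod n → ℂ} {kap : ZMod n → ZMod N} (hP : IsPolygon P v)
    (x : SPt P v N) (a : ZMod N) :
    (fold P v kap (ns v x.p) (x.p, rfl' a x.g)).1 = x.p ∧
    (x.p ∉ interior P → (fold P v kap (ns v x.p) (x.p, rfl' a x.g)).2.2 = false) := by
  by_cases h : x.p ∈ interior P
  · rw [fold_int h]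
    exact ⟨rfl, fun h' => absurd h h'⟩
  · rw [fold_side h x.mem]
    refine ⟨rfl, fun _ => ?_⟩
    have h1 := x.bit h
    have h2 : (rfl' a x.g).2 = true := by rw [rfl'_bit, h1]; rfl
    simp only [h2, if_true]
    unfold rf
    simp [h2]

/-- the reflection of the surface -/
noncomputable def G {P : Set ℂ} {v : ZMod n → ℂ} (kap : ZMod n → ZMod N) (hP : IsPolygon P v)
    (a : ZMod N) (x : SPt P v N) : SPt P v N where
  p := x.p
  g := (fold P v kap (ns v x.p) (x.p, rfl' a x.g)).2
  mem := x.mem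
  nv := x.nv
  bit := (fold_fst_snd hP x a).2

theorem G_p {P : Set ℂ} {v : ZMod n → ℂ} (kap : ZMod n → ZMod N) (hP : IsPolygon P v)
    (a : ZMod N) (x : SPt P v N) : (G kap hP a x).p = x.p := rfl

theorem G_int {P : Set ℂ} {v : ZMod n → ℂ} (kap : ZMod n → ZMod N) (hP : IsPolygon P v)
    (a : ZMod N) (x : SPt P v N) (h : x.p ∈ interior P) : (G kap hP a x).g = rfl' a x.g := by
  show (fold P v kap (ns v x.p) (x.p, rfl' a x.g)).2 = _
  rw [fold_int h]

theorem G_side {P : Set ℂ} {v : ZMod n → ℂ} (kap : ZMod n → ZMod N) (hP : IsPolygon P v)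
    (a : ZMod N) (x : SPt P v N) (h : x.p ∉ interior P) :
    (G kap hP a x).g = rf kap (ns v x.p) (rfl' a x.g) := by
  show (fold P v kap (ns v x.p) (x.p, rfl' a x.g)).2 = _
  rw [fold_side h x.mem]
  have h2 : (rfl' a x.g).2 = true := by rw [rfl'_bit, x.bit h]; rfl
  simp only [h2, if_true]

theorem G_G {P : Set ℂ} {v : ZMod n → ℂ} (kap : ZMod n → ZMod N) (hP : IsPolygon P v)
    (a : ZMod N) (x : SPt P v N) : G kap hP a (G kap hP a x) = x := by
  apply SPt.ext
  · rfl
  · by_cases h : x.p ∈ interior P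
    · rw [G_int kap hP a _ (by rw [G_p]; exact h), G_int kap hP a x h, rfl'_rfl']
    · rw [G_side kap hP a _ (by rw [G_p]; exact h), G_side kap hP a x h, G_p, ← rf_rfl', rfl'_rfl', rf_rf]

/-- folding commutes with the reflection -/
theorem fold_rfl' {P : Set ℂ} {v : ZMod n → ℂ} {kap : ZMod n → ZMod N} (hP : IsPolygon P v)
    (hk : Par v kap) (p : ℂ) (hp : p ∈ P) (hv : ∀ i, p ≠ v i) (z : ℂ) (hz : z ∈ ball p (rho2 v p))
    (g : Fr N) (a : ZMod N) (y : SPt P v N) (hy : (y.p, y.g) = fold P v kap (ns v p) (z, g)) :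
    fold P v kap (ns v p) (z, rfl' a g) = ((G kap hP a y).p, (G kap hP a y).g) := by
  by_cases h1 : z ∈ interior P
  · rw [fold_int h1] at hy ⊢
    have e1 : y.p = z := congrArg Prod.fst hy
    have e2 : y.g = g := congrArg Prod.snd hy
    rw [G_int kap hP a y (by rw [e1]; exact h1), G_p, e1, e2]
  by_cases h2 : z ∈ P
  · rcases ball_cases hP p hp hv with hb | ⟨σ, hb⟩
    · exact absurd (hb hz) h1
    have hcd : cdet (v (ns v p + 1) - v (ns v p)) (z - v (ns v p)) = 0 := by
      rcases hb.zero_or z with h3 | h3 | h3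
      · exact absurd ((hb.2 z hz).1 h3) h1
      · exact h3
      · exact absurd h2 ((hb.2 z hz).2.2 h3)
    have hs := (hb.side hP hz hcd).1
    have hnz : ns v z = ns v p := (ns_open hP hs).1
    rw [fold_side h1 h2] at hy ⊢
    have e1 : y.p = z := congrArg Prod.fst hy
    have e2 : y.g = if g.2 then rf kap (ns v p) g else g := congrArg Prod.snd hy
    rw [G_side kap hP a y (by rw [e1]; exact h1), G_p, e1, e2, hnz, rfl'_bit]
    cases hg : g.2
    · simp
    · simp only [Bool.not_true, Bool.false_eq_true, if_false, if_true]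
      rw [← rf_rfl', rf_rf]
  · have hok := fold_ok hP hk p hp hv z hz g
    rw [← hy] at hok
    rw [fold_out h2] at hy ⊢
    have e1 : y.p = mir v kap (ns v p) z := congrArg Prod.fst hy
    have e2 : y.g = rf kap (ns v p) g := congrArg Prod.snd hy
    have h3 : y.p ∈ interior P := by
      rcases ball_cases hP p hp hv with hb | ⟨σ, hb⟩
      · exact absurd (interior_subset (hb hz)) h2
      · have hm : y.p ∈ ball p (rho2 v p) := by
          rw [mem_ball, dist_eq_norm] at hz ⊢
          exact hok.2.2.2.trans_lt hz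
        apply (hb.2 _ hm).1
        rw [e1, cdet_mir hk]
        have : σ * cdet (v (ns v p + 1) - v (ns v p)) (z - v (ns v p)) < 0 := by
          rcases hb.zero_or z with h3 | h3 | h3
          · exact absurd (interior_subset ((hb.2 z hz).1 h3)) h2
          · exact absurd (hb.side hP hz h3).2.1 h2
          · exact h3
        linarith
    rw [G_int kap hP a y h3, G_p, e1, e2, rf_rfl']

theorem sadd_G {P : Set ℂ} {v : ZMod n → ℂ} {kap : ZMod n → ZMod N} (hP : IsPolygon P v)
    (hk : Par v kap) (a : ZMod N) (x : SPt P v N) (u : ℂ) (hu : ‖u‖ < rho2 v x.p) :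
    sadd hP hk (G kap hP a x) (E a * (starRingEnd ℂ) u) = G kap hP a (sadd hP hk x u) := by
  have hu' : ‖E a * (starRingEnd ℂ) u‖ < rho2 v x.p := by
    rw [norm_mul, norm_E, one_mul, Complex.norm_conj]; exact hu
  have e1 := sadd_eq hP hk (G kap hP a x) (E a * (starRingEnd ℂ) u) hu'
  have e2 := sadd_eq hP hk x u hu
  have e3 := fold_rfl' hP hk x.p x.mem x.nv _ (ball_fr (g := x.g) hu) x.g a (sadd hP hk x u) e2
  have key : fold P v kap (ns v (G kap hP a x).p)
      ((G kap hP a x).p + fr (G kap hP a x).g (E a * (starRingEnd ℂ) u), (G kap hP a x).g) =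
      fold P v kap (ns v x.p) (x.p + fr x.g u, rfl' a x.g) := by
    rw [G_p]
    have hcc : E a * (starRingEnd ℂ) (E a * (starRingEnd ℂ) u) = u := by
      rw [map_mul, Complex.conj_conj, Pool.Agent.Lib.H23D.E_conj, ← mul_assoc,
        ← Pool.Agent.Lib.H23D.E_add, add_neg_cancel, Pool.Agent.Lib.H23D.E_zero, one_mul]
    by_cases h : x.p ∈ interior P
    · rw [G_int kap hP a x h, fr_rfl', hcc]
    · rcases ball_cases hP x.p x.mem x.nv with hb | ⟨σ, hb⟩
      · exact absurd (hb (mem_ball_self (rho2_pos hP x.p x.nv))) h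
      have hcd : cdet (v (ns v x.p + 1) - v (ns v x.p)) (x.p - v (ns v x.p)) = 0 := by
        rcases hb.zero_or x.p with h3 | h3 | h3
        · exact absurd ((hb.2 x.p (mem_ball_self (rho2_pos hP x.p x.nv))).1 h3) h
        · exact h3
        · exact absurd x.mem ((hb.2 x.p (mem_ball_self (rho2_pos hP x.p x.nv))).2.2 h3)
      have hs := (hb.side hP (mem_ball_self (rho2_pos hP x.p x.nv)) hcd).1
      have hmx := mir_side hk _ _ (openSegment_subset_segment _ _ _ hs)
      have hpt : x.p + fr (rf kap (ns v x.p) (rfl' a x.g)) (E a * (starRingEnd ℂ) u) =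
          mir v kap (ns v x.p) (x.p + fr x.g u) := by
        have h5 := mir_add v kap (ns v x.p) (rfl' a x.g) x.p (E a * (starRingEnd ℂ) u)
        rw [hmx, fr_rfl', hcc] at h5
        exact h5.symm
      rw [G_side kap hP a x h, hpt]
      refine fold_mir hP hk hb (ball_fr hu) ?_ _
      rw [mem_ball, dist_eq_norm]
      have : mir v kap (ns v x.p) (x.p + fr x.g u) - x.p =
          mir v kap (ns v x.p) (x.p + fr x.g u) - mir v kap (ns v x.p) x.p := by rw [hmx]
      rw [this, norm_mir, add_sub_cancel_left, norm_fr]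
      exact hu
  rw [key, e3] at e1
  exact SPt.ext (congrArg Prod.fst e1) (congrArg Prod.snd e1)

/-- the fixed points -/
theorem G_fix_iff {P : Set ℂ} {v : ZMod n → ℂ} (kap : ZMod n → ZMod N) (hP : IsPolygon P v)
    (a : ZMod N) (x : SPt P v N) : G kap hP a x = x ↔
      ∃ i, x.p ∈ openSegment ℝ (v i) (v (i + 1)) ∧ x.g.2 = false ∧ 2 * x.g.1 + a = 2 * kap i := by
  constructor
  · intro h
    have hg : (G kap hP a x).g = x.g := by rw [h]
    by_cases hi : x.p ∈ interior P
    · rw [G_int kap hP a x hi] at hg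
      have := congrArg Prod.snd hg
      rw [rfl'_bit] at this
      cases h2 : x.g.2 <;> rw [h2] at this <;> simp at this
    · have hf : x.p ∈ frontier P := ⟨subset_closure x.mem, hi⟩
      rw [hP.frontier_eq] at hf
      obtain ⟨i, hs⟩ := mem_iUnion.1 hf
      have hso : x.p ∈ openSegment ℝ (v i) (v (i + 1)) :=
        mem_openSegment_of_ne_left_right (x.nv i).symm (x.nv (i + 1)).symm hs
      have hb := x.bit hi
      refine ⟨i, hso, hb, ?_⟩
      rw [G_side kap hP a x hi, (ns_open hP hso).1] at hg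
      have h1 := congrArg Prod.fst hg
      unfold rf at h1
      rw [rfl'_eq, hb] at h1
      simp only [Bool.false_eq_true, if_false] at h1
      rw [two_mul x.g.1]
      nth_rewrite 1 [← h1]
      ring
  · rintro ⟨i, hso, hb, h2⟩
    have hi : x.p ∉ interior P := (side_mem hP (openSegment_subset_segment _ _ _ hso)).2
    apply SPt.ext
    · rfl
    · rw [G_side kap hP a x hi, (ns_open hP hso).1]
      unfold rf
      rw [rfl'_eq, hb]
      simp only [Bool.false_eq_true, if_false, Bool.not_false, Bool.not_true]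
      ext
      · show 2 * kap i - (x.g.1 + a) = x.g.1
        rw [← h2]; ring
      · exact hb.symm

omit [NeZero N] in
theorem two_cancel (hN : N.Prime) (h2 : N ≠ 2) {a b : ZMod N} (h : 2 * a = 2 * b) : a = b := by
  have hodd : Odd N := hN.odd_of_ne_two h2
  obtain ⟨k, hk⟩ := hodd
  have h3 : ((k + 1 : ℕ) : ZMod N) * 2 = 1 := by
    have : ((N : ℕ) : ZMod N) = 0 := ZMod.natCast_self N
    have h4 : (((k + 1 : ℕ) * 2 : ℕ) : ZMod N) = ((N + 1 : ℕ) : ZMod N) := by congr 1; omega
    push_cast at h4 ⊢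
    rw [h4, this]; ring
  calc a = ((k + 1 : ℕ) : ZMod N) * 2 * a := by rw [h3, one_mul]
    _ = ((k + 1 : ℕ) : ZMod N) * (2 * a) := by ring
    _ = ((k + 1 : ℕ) : ZMod N) * (2 * b) := by rw [h]
    _ = ((k + 1 : ℕ) : ZMod N) * 2 * b := by ring
    _ = b := by rw [h3, one_mul]

end

end Pool.Agent.Lib.H45Z
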