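import Mathlib
import Pool.Agent.Lib.H45Z.Inj
import Pool.Agent.Lib.H25D.Defs

/-!
# MP_273810_co: the surface of a polygon as a `TSurf` (library H45Z, helper45)
-/

open Set Metric Filter Topology

namespace Pool.Agent.Lib.H45Z

open Pool.Agent.Lib.H42I (IsPolygon)

section
variable {n N : ℕ} [NeZero N]

/-- the surface of states of a polygon -/
noncomputable def PS {P : Set ℂ} {v : ZMod n → ℂ} {kap : ZMod n → ZMod N} (hP : IsPolygon P v)
    (hk : Par v kap) : H25D.TSurf (SPt P v N) where
  rad x := rho2 v x.p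
  add := sadd hP hk
  rad_pos x := rho2_pos hP x.p x.nv
  add_zero := sadd_zero hP hk
  rad_add x u _ := sadd_rho hP hk x u
  add_add x u u' h := sadd_add hP hk x u u' h
  inj x u w hu hw h := sadd_inj0 hP hk x u w hu hw h

end

end Pool.Agent.Lib.H45Z
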