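import Mathlib
import Pool.Agent.Lib.H45Z.Surf2

/-!
# MP_273810_co: the coordinate around a vertex (library H45Z, helper45)

`om v i x = g⁻¹ (p - v i)`; near the vertex `v i` translations act as `om (add x u) = om x + u`.
-/

open Set Metric Filter Topology

namespace Pool.Agent.Lib.H45Z

open Pool.Agent.Lib.H42I (IsPolygon)
open Pool.Agent.H52W (cdet curve Inside)
open Pool.Agent.Lib.H23D (E)

section
variable {n N : ℕ} [NeZero N]

/-- the displacement from the vertex `v i`, in the coordinates of the surface -/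
noncomputable def om {P : Set ℂ} {v : ZMod n → ℂ} (i : ZMod n) (x : SPt P v N) : ℂ :=
  fri x.g (x.p - v i)

theorem norm_om {P : Set ℂ} {v : ZMod n → ℂ} (i : ZMod n) (x : SPt P v N) :
    ‖om i x‖ = ‖x.p - v i‖ := by
  unfold om
  rw [← norm_fr x.g (fri x.g (x.p - v i)), fr_fri]

theorem fr_om {P : Set ℂ} {v : ZMod n → ℂ} (i : ZMod n) (x : SPt P v N) :
    x.p = v i + fr x.g (om i x) := by
  unfold om
  rw [fr_fri]; ring

theorem fri_rf_mir (v : ZMod n → ℂ) (kap : ZMod n → ZMod N) (j : ZMod n) (g : Fr N) (z w : ℂ) :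
    fri (rf kap j g) (mir v kap j z - mir v kap j w) = fri g (z - w) := by
  apply fr_injective (rf kap j g)
  rw [fr_fri, fr_rf, fr_fri]
  unfold mir
  rw [map_sub, map_sub, map_sub]; ring

theorem mir_vertex {P : Set ℂ} {v : ZMod n → ℂ} {kap : ZMod n → ZMod N} (hP : IsPolygon P v)
    (hk : Par v kap) (i j : ZMod n) (hj : j = i ∨ j = i - 1) : mir v kap j (v i) = v i := by
  rcases hj with rfl | rfl
  · exact mir_side hk _ _ (left_mem_segment ℝ _ _)
  · apply mir_side hk
    simpa using right_mem_segment ℝ (v (i - 1)) (v (i - 1 + 1))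

theorem om_sadd {P : Set ℂ} {v : ZMod n → ℂ} {kap : ZMod n → ZMod N} (hP : IsPolygon P v)
    (hk : Par v kap) (i : ZMod n) (x : SPt P v N) (hx : ns v x.p = i ∨ ns v x.p = i - 1) (u : ℂ)
    (hu : ‖u‖ < rho2 v x.p) : om i (sadd hP hk x u) = om i x + u := by
  have e1 := sadd_eq hP hk x u hu
  have hmv := mir_vertex hP hk i (ns v x.p) hx
  have hO : fri x.g (x.p + fr x.g u - v i) = om i x + u := by
    have : x.p + fr x.g u - v i = (x.p - v i) + fr x.g u := by ring
    rw [this, fri_add, fri_fr]; rfl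
  have hfin : ∀ (z : ℂ) (g : Fr N), ((sadd hP hk x u).p, (sadd hP hk x u).g) = (z, g) →
      om i (sadd hP hk x u) = fri g (z - v i) := by
    intro z g h
    unfold om
    rw [show (sadd hP hk x u).p = z from congrArg Prod.fst h,
      show (sadd hP hk x u).g = g from congrArg Prod.snd h]
  have hmir : ∀ z : ℂ, fri (rf kap (ns v x.p) x.g) (mir v kap (ns v x.p) z - v i) =
      fri x.g (z - v i) := by
    intro z
    have := fri_rf_mir v kap (ns v x.p) x.g z (v i)
    rwa [hmv] at this
  by_cases h1 : x.p + fr x.g u ∈ interior P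
  · rw [fold_int h1] at e1
    rw [hfin _ _ e1, hO]
  by_cases h2 : x.p + fr x.g u ∈ P
  · rw [fold_side h1 h2] at e1
    rcases ball_cases hP x.p x.mem x.nv with h | ⟨σ, h⟩
    · exact absurd (h (ball_fr hu)) h1
    have hcd : cdet (v (ns v x.p + 1) - v (ns v x.p)) (x.p + fr x.g u - v (ns v x.p)) = 0 := by
      rcases h.zero_or (x.p + fr x.g u) with h3 | h3 | h3
      · exact absurd ((h.2 _ (ball_fr hu)).1 h3) h1
      · exact h3
      · exact absurd h2 ((h.2 _ (ball_fr hu)).2.2 h3)
    have hs := (h.side hP (ball_fr hu) hcd).1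
    rw [hfin _ _ e1]
    cases hg : x.g.2
    · simp only [Bool.false_eq_true, if_false]
      exact hO
    · simp only [if_true]
      have h3 := hmir (x.p + fr x.g u)
      rw [mir_side hk _ _ (openSegment_subset_segment _ _ _ hs)] at h3
      rw [h3, hO]
  · rw [fold_out h2] at e1
    rw [hfin _ _ e1, hmir, hO]

end

end Pool.Agent.Lib.H45Z
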