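import Mathlib
import Pool.Agent.Lib.H32W.Final
import Pool.Agent.Lib.H52W.Facts
import Pool.Agent.Lib.H52W.MemQ

/-!
# MP_273810_co: from dense sets of sources to a robust source (library H45Z, helper45)
-/

open Set Metric Filter Topology

namespace Pool.Agent.Lib.H45Z

open Pool.Agent.Lib.H42I (Ray IsPolygon Illuminable)
open Pool.Agent.Lib.H32W (det GoodArr)

/-- The sources from which a light ray arrives at the vertex `v i` on the inner side of both adjacent
sides. -/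
def VSrc {n : ℕ} (P : Set ℂ) (v : ZMod n → ℂ) (i : ZMod n) : Set ℂ :=
  {q | ∃ d, Ray P v q (v i) d ∧ 0 < det (v i - v (i - 1)) d * det (v (i + 1) - v i) d}

theorem vertex_mem {n : ℕ} {P : Set ℂ} {v : ZMod n → ℂ} (hP : IsPolygon P v) (i : ZMod n) :
    v i ∈ P := by
  have h1 : v i ∈ frontier P := by
    rw [hP.frontier_eq]
    exact mem_iUnion.2 ⟨i, left_mem_segment ℝ _ _⟩
  exact hP.compact.isClosed.frontier_subset h1

/-- Inside the polygon the set `VSrc` is open. -/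
theorem isOpen_VSrc {n : ℕ} {P : Set ℂ} {v : ZMod n → ℂ} (hP : IsPolygon P v) (i : ZMod n) :
    IsOpen (interior P ∩ VSrc P v i) := by
  rw [isOpen_iff_mem_nhds]
  rintro q₀ ⟨hq, d, hr, hd⟩
  obtain ⟨V, c, hc, hV, hdV, hst⟩ :=
    Pool.Agent.Lib.H32W.ray_lit P v hP (Pool.Agent.H52W.facts hP) q₀ hq (v i) d hr
  have hev := hst (Or.inr (Or.inr ⟨i, rfl, hd⟩))
  -- restrict to the fixed polygon and the fixed target
  have t1 : Tendsto (fun q : ℂ => (((v, q), v i) : ((ZMod n → ℂ) × ℂ) × ℂ)) (𝓝 q₀)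
      (𝓝 ((v, q₀), v i)) := by
    apply Continuous.tendsto'
    · fun_prop
    · rfl
  have e1 := t1.eventually hev
  have t2 : Tendsto (fun q : ℂ => ((v, q) : (ZMod n → ℂ) × ℂ)) (𝓝 q₀) (𝓝 (v, q₀)) := by
    apply Continuous.tendsto'
    · fun_prop
    · rfl
  have hVq : ContinuousAt (fun q : ℂ => V (v, q)) q₀ :=
    ContinuousAt.comp (g := V) (f := fun q : ℂ => ((v, q) : (ZMod n → ℂ) × ℂ)) hV t2
  have hdir : ContinuousAt (fun q : ℂ => v i - V (v, q)) q₀ := continuousAt_const.sub hVq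
  have hprod : ContinuousAt (fun q : ℂ => det (v i - v (i - 1)) (v i - V (v, q)) *
      det (v (i + 1) - v i) (v i - V (v, q))) q₀ :=
    (Pool.Agent.Lib.H32W.ca_det continuousAt_const hdir).mul
      (Pool.Agent.Lib.H32W.ca_det continuousAt_const hdir)
  have hpos : 0 < det (v i - v (i - 1)) (v i - V (v, q₀)) *
      det (v (i + 1) - v i) (v i - V (v, q₀)) := by
    rw [hdV, Pool.Agent.Lib.H32W.det_real, Pool.Agent.Lib.H32W.det_real] at hd
    by_contra hcon
    rw [not_lt] at hcon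
    have : c * det (v i - v (i - 1)) (v i - V (v, q₀)) *
        (c * det (v (i + 1) - v i) (v i - V (v, q₀)))
        = c ^ 2 * (det (v i - v (i - 1)) (v i - V (v, q₀)) *
          det (v (i + 1) - v i) (v i - V (v, q₀))) := by ring
    rw [this] at hd
    exact absurd hd (not_lt.2 (mul_nonpos_of_nonneg_of_nonpos (sq_nonneg c) hcon))
  have e2 := hprod.eventually (lt_mem_nhds hpos)
  filter_upwards [e1, e2, isOpen_interior.mem_nhds hq] with q h1 h2 h3
  obtain ⟨c', hc', hray⟩ := h1 P hP (vertex_mem hP i)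
  refine ⟨h3, _, hray, ?_⟩
  rw [Pool.Agent.Lib.H32W.det_real, Pool.Agent.Lib.H32W.det_real]
  have : c' * det (v i - v (i - 1)) (v i - V (v, q)) *
      (c' * det (v (i + 1) - v i) (v i - V (v, q)))
      = c' ^ 2 * (det (v i - v (i - 1)) (v i - V (v, q)) *
        det (v (i + 1) - v i) (v i - V (v, q))) := by ring
  rw [this]
  exact mul_pos (by positivity) h2

/-- Finitely many relatively open and dense sets of sources meet in a dense set. -/
theorem dense_inter {n : ℕ} {P : Set ℂ} {v : ZMod n → ℂ} (hP : IsPolygon P v)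
    (hK : ∀ i, P ⊆ closure (VSrc P v i)) (s : Finset (ZMod n)) (U : Set ℂ) (hU : IsOpen U)
    (hUP : U ⊆ interior P) (hne : U.Nonempty) :
    ∃ W : Set ℂ, IsOpen W ∧ W.Nonempty ∧ W ⊆ U ∧ ∀ i ∈ s, W ⊆ VSrc P v i := by
  classical
  induction s using Finset.induction_on with
  | empty => exact ⟨U, hU, hne, subset_rfl, by simp⟩
  | insert i s hi ih =>
    obtain ⟨W, hW, hWne, hWU, hWs⟩ := ih
    obtain ⟨x, hx⟩ := hWne
    have hxP : x ∈ P := interior_subset (hUP (hWU hx))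
    obtain ⟨y, hyW, hyV⟩ := mem_closure_iff.1 (hK i hxP) W hW hx
    refine ⟨W ∩ (interior P ∩ VSrc P v i), hW.inter (isOpen_VSrc hP i),
      ⟨y, hyW, hUP (hWU hyW), hyV⟩, inter_subset_left.trans hWU, ?_⟩
    intro j hj
    rcases Finset.mem_insert.1 hj with rfl | hj
    · exact fun z hz => hz.2.2
    · exact inter_subset_left.trans (hWs j hj)

/-- GENERIC CRITERION. -/
theorem generic {n : ℕ} {P : Set ℂ} {v : ZMod n → ℂ} (hP : IsPolygon P v)
    (hW : P ⊆ closure {q | Illuminable P v q}) (hK : ∀ i, P ⊆ closure (VSrc P v i)) :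
    ∃ q ∈ interior P, ∃ ε : ℝ, 0 < ε ∧ ∀ (P' : Set ℂ) (v' : ZMod n → ℂ), IsPolygon P' v' →
      (∀ i, ‖v' i - v i‖ < ε) → ∀ q' : ℂ, ‖q' - q‖ < ε → Illuminable P' v' q' := by
  have : NeZero n := ⟨by have := hP.three_le; omega⟩
  obtain ⟨W, hWo, hWne, hWi, hWs⟩ := dense_inter hP hK Finset.univ (interior P) isOpen_interior
    subset_rfl hP.connected.nonempty
  obtain ⟨x, hx⟩ := hWne
  obtain ⟨q, hqW, hq⟩ := mem_closure_iff.1 (hW (interior_subset (hWi hx))) W hWo hx
  refine ⟨q, hWi hqW, ?_⟩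
  apply Pool.Agent.Lib.H32W.robust_metric P v hP (Pool.Agent.H52W.facts hP) q (hWi hqW)
  intro y hy
  by_cases hv : ∀ i, y ≠ v i
  · rcases hq y hy with h1 | ⟨d, hd⟩
    · exact Or.inl h1
    · exact Or.inr ⟨d, hd, Pool.Agent.Lib.H32W.good_of_not_vertex v y d hv⟩
  · push Not at hv
    obtain ⟨i, rfl⟩ := hv
    obtain ⟨d, hd, hdet⟩ := hWs i (Finset.mem_univ i) hqW
    exact Or.inr ⟨d, hd, Or.inr (Or.inr ⟨i, rfl, hdet⟩)⟩

end Pool.Agent.Lib.H45Z
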