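import Mathlib
import Pool.Agent.Lib.H45Z.TSurf
import Pool.Agent.Lib.H45Z.Sym0

/-!
# MP_273810_co: the reflection symmetries of the surface of a polygon (library H45Z, helper45)
-/

open Set Metric Filter Topology

namespace Pool.Agent.Lib.H45Z

open Pool.Agent.Lib.H42I (IsPolygon)
open Pool.Agent.Lib.H23D (E)

section
variable {n N : ℕ} [NeZero N]

/-- the reflection symmetry as a `Refl` -/
theorem refl_G {P : Set ℂ} {v : ZMod n → ℂ} {kap : ZMod n → ZMod N} (hP : IsPolygon P v)
    (hk : Par v kap) (a : ZMod N) (θ : ℂ) (hθ : -(θ ^ 2) = E a) :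
    (PS hP hk).Refl θ (G kap hP a) where
  invol := G_G kap hP a
  rad _ := rfl
  add x u hu := by
    have := sadd_G hP hk a x u hu
    show sadd hP hk (G kap hP a x) (-(θ ^ 2) * (starRingEnd ℂ) u) = G kap hP a (sadd hP hk x u)
    rw [hθ]; exact this

end

end Pool.Agent.Lib.H45Z
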