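import Mathlib
import Pool.Agent.Lib.H45Z.Sym

/-!
# MP_273810_co: the inputs `cpt` and `arcs` for the surface of a polygon (library H45Z, helper45)
-/

open Set Metric Filter Topology

namespace Pool.Agent.Lib.H45Z

open Pool.Agent.Lib.H42I (IsPolygon)
open Pool.Agent.H52W (cdet curve Inside)
open Pool.Agent.Lib.H23D (E)

section
variable {n N : ℕ} [NeZero N]

theorem norm_fri (g : Fr N) (z : ℂ) : ‖fri g z‖ = ‖z‖ := by
  rw [← norm_fr g (fri g z), fr_fri]

/-- a point of the surface with the same frame that is close by -/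
theorem sadd_near {P : Set ℂ} {v : ZMod n → ℂ} {kap : ZMod n → ZMod N} (hP : IsPolygon P v)
    (hk : Par v kap) (x y : SPt P v N) (hg : x.g = y.g) (hd : ‖y.p - x.p‖ < rho2 v x.p) :
    y = sadd hP hk x (fri x.g (y.p - x.p)) := by
  have hu : ‖fri x.g (y.p - x.p)‖ < rho2 v x.p := by rw [norm_fri]; exact hd
  have hz : x.p + fr x.g (fri x.g (y.p - x.p)) = y.p := by rw [fr_fri]; ring
  by_cases h : y.p ∈ interior P
  · obtain ⟨h1, h2⟩ := sadd_int hP hk x _ hu (by rw [hz]; exact h)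
    apply SPt.ext
    · rw [h1, hz]
    · rw [h2, hg]
  · obtain ⟨h1, h2⟩ := sadd_side hP hk x _ hu (by rw [hz]; exact y.mem) (by rw [hz]; exact h)
    apply SPt.ext
    · rw [h1, hz]
    · rw [h2, hg, y.bit h]
      simp

theorem cpt {P : Set ℂ} {v : ZMod n → ℂ} {kap : ZMod n → ZMod N} (hP : IsPolygon P v)
    (hk : Par v kap) : ∀ ε > 0, ∀ x : ℕ → SPt P v N, (∀ n, ε ≤ (PS hP hk).rad (x n)) → ∀ ε' > 0,
      ∃ m m' : ℕ, m < m' ∧ ∃ u, ‖u‖ < ε' ∧ x m' = (PS hP hk).add (x m) u := by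
  intro ε hε x hx ε' hε'
  set δ := min ε ε' with hδ
  have hδ0 : 0 < δ := lt_min hε hε'
  obtain ⟨t, ht1, ht2⟩ := (Metric.totallyBounded_iff.1 hP.compact.totallyBounded) (δ / 2) (by linarith)
  have hc : ∀ k, ∃ c : t, dist (x k).p (c : ℂ) < δ / 2 := by
    intro k
    obtain ⟨c, hc, hk⟩ := mem_iUnion₂.1 (ht2 (x k).mem)
    exact ⟨⟨c, hc⟩, hk⟩
  choose c hc using hc
  have : Finite t := ht1
  obtain ⟨m, m', hne, heq⟩ := Finite.exists_ne_map_eq_of_infinite (fun k => (c k, (x k).g))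
  wlog hlt : m < m' generalizing m m' with H
  · exact H m' m hne.symm heq.symm (lt_of_le_of_ne (not_lt.1 hlt) hne.symm)
  have h1 : c m = c m' := congrArg Prod.fst heq
  have h2 : (x m).g = (x m').g := congrArg Prod.snd heq
  have h3 : ‖(x m').p - (x m).p‖ < δ := by
    rw [← dist_eq_norm]
    have h4 := hc m
    have h5 := hc m'
    rw [← h1] at h5
    calc dist (x m').p (x m).p ≤ dist (x m').p (c m : ℂ) + dist (x m).p (c m : ℂ) := dist_triangle_right _ _ _
      _ < δ := by linarith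
  refine ⟨m, m', hlt, fri (x m).g ((x m').p - (x m).p), ?_, ?_⟩
  · rw [norm_fri]; exact h3.trans_le (min_le_right _ _)
  · exact sadd_near hP hk (x m) (x m') h2 ((h3.trans_le (min_le_left _ _)).trans_le (hx m))

/-- a straight path with a constant frame -/
theorem seg_const {P : Set ℂ} {v : ZMod n → ℂ} {kap : ZMod n → ZMod N} (hP : IsPolygon P v)
    (hk : Par v kap) (x y : SPt P v N) (W : ℂ) (hg : x.g = y.g) (hW : fr x.g W = y.p - x.p)
    (hmem : ∀ t ∈ Icc (0 : ℝ) 1, x.p + (t : ℂ) * (y.p - x.p) ∈ P ∧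
      (∀ i, x.p + (t : ℂ) * (y.p - x.p) ≠ v i) ∧
      (x.p + (t : ℂ) * (y.p - x.p) ∉ interior P → x.g.2 = false)) :
    (PS hP hk).Seg x W y := by
  classical
  let z : ℝ → SPt P v N := fun t => if h : t ∈ Icc (0 : ℝ) 1 then
    ⟨x.p + (t : ℂ) * (y.p - x.p), x.g, (hmem t h).1, (hmem t h).2.1, (hmem t h).2.2⟩ else x
  have hz : ∀ t (h : t ∈ Icc (0 : ℝ) 1), (z t).p = x.p + (t : ℂ) * (y.p - x.p) ∧ (z t).g = x.g := by
    intro t h
    simp only [z]
    rw [dif_pos h]
    exact ⟨rfl, rfl⟩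
  refine ⟨z, ?_, ?_, ?_⟩
  · have h0 := hz 0 ⟨le_rfl, zero_le_one⟩
    apply SPt.ext
    · rw [h0.1]; simp
    · exact h0.2
  · have h1 := hz 1 ⟨zero_le_one, le_rfl⟩
    apply SPt.ext
    · rw [h1.1]; simp
    · rw [h1.2, hg]
  · intro s hs
    have hs' := hz s hs
    have hpos := rho2_pos hP (z s).p (z s).nv
    refine ⟨rho2 v (z s).p / (‖y.p - x.p‖ + 1), by positivity, fun s' hs1 hss => ?_⟩
    have hs'' := hz s' hs1
    have hdiff : (z s').p - (z s).p = ((s' - s : ℝ) : ℂ) * (y.p - x.p) := by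
      rw [hs'.1, hs''.1]; push_cast; ring
    have hd : ‖(z s').p - (z s).p‖ < rho2 v (z s).p := by
      rw [hdiff, norm_mul, Complex.norm_real, Real.norm_eq_abs]
      rw [lt_div_iff₀ (by positivity)] at hss
      nlinarith [norm_nonneg (y.p - x.p), abs_nonneg (s' - s)]
    have h1 := sadd_near hP hk (z s) (z s') (by rw [hs'.2, hs''.2]) hd
    have h2 : fri (z s).g ((z s').p - (z s).p) = ((s' - s : ℝ) : ℂ) * W := by
      apply fr_injective (z s).g
      rw [fr_fri, hdiff, fr_real, hs'.2, hW]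
    rw [h2] at h1
    exact h1

theorem arcs {P : Set ℂ} {v : ZMod n → ℂ} {kap : ZMod n → ZMod N} (hP : IsPolygon P v)
    (hk : Par v kap) (hN : N.Prime) (h2 : N ≠ 2) (e : ZMod N) :
    ∃ (J : Type) (_ : Finite J) (_ : Nonempty J) (l : J → ℝ) (η : J → ℝ) (c : J → ℝ → SPt P v N),
    (∀ j, 0 < l j) ∧ (∀ j, η j = 1 ∨ η j = -1) ∧
    (∀ j, ∀ s ∈ Ioo 0 (l j), G kap hP (2 * e) (c j s) = c j s) ∧
    (∀ j, ∀ s ∈ Ioo 0 (l j), ∀ s' ∈ Ioo 0 (l j),
      (PS hP hk).Seg (c j s) (((η j * (s' - s) : ℝ) : ℂ) * (Complex.I * (Complex.I * E e))) (c j s')) ∧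
    (∀ x, G kap hP (2 * e) x = x → ∃ j, ∃ s ∈ Ioo 0 (l j), x = c j s) := by
  classical
  have hNe := Pool.Agent.H52W.neZero_of_polygon hP
  have hr : ∀ i, ∃ r : ℝ, r ≠ 0 ∧ v (i + 1) - v i = (r : ℂ) * E (kap i) := by
    intro i
    obtain ⟨r, hr⟩ := hk i
    refine ⟨r, ?_, hr⟩
    rintro rfl
    apply Pool.Agent.H52W.side_ne_of_polygon hP i
    have : v (i + 1) - v i = 0 := by rw [hr]; simp
    exact (sub_eq_zero.1 this).symm
  choose r hr0 hr using hr
  -- the points of the open sides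
  have hopen : ∀ i (s : ℝ), s ∈ Ioo 0 |r i| →
      v i + ((s / |r i| : ℝ) : ℂ) * (v (i + 1) - v i) ∈ openSegment ℝ (v i) (v (i + 1)) := by
    intro i s hs
    have h0 : 0 < |r i| := abs_pos.2 (hr0 i)
    exact Pool.Agent.H52W.param_mem_openSegment _ _ _ (div_pos hs.1 h0) ((div_lt_one h0).2 hs.2)
  have hmk : ∀ i (p : ℂ), p ∈ openSegment ℝ (v i) (v (i + 1)) → ∃ x : SPt P v N, x.p = p ∧
      x.g = (kap i - e, false) := fun i p hp =>
    ⟨⟨p, (kap i - e, false), (side_mem hP (openSegment_subset_segment _ _ _ hp)).1,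
      fun k h => Pool.Agent.H52W.not_vertex_of_open hP i p hp k h.symm, fun _ => rfl⟩, rfl, rfl⟩
  have hcx : ∀ i (s : ℝ), ∃ x : SPt P v N, s ∈ Ioo 0 |r i| →
      (x.p = v i + ((s / |r i| : ℝ) : ℂ) * (v (i + 1) - v i) ∧ x.g = (kap i - e, false)) := by
    intro i s
    by_cases hs : s ∈ Ioo 0 |r i|
    · obtain ⟨x, h1, h3⟩ := hmk i _ (hopen i s hs)
      exact ⟨x, fun _ => ⟨h1, h3⟩⟩
    · have h0 : 0 < |r i| := abs_pos.2 (hr0 i)
      obtain ⟨x, h1, h3⟩ := hmk i _ (hopen i (|r i| / 2) ⟨by linarith, by linarith⟩)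
      exact ⟨x, fun h => absurd h hs⟩
  choose c hc using hcx
  refine ⟨ZMod n, inferInstance, ⟨0⟩, fun i => |r i|, fun i => if 0 < r i then -1 else 1, c,
    fun i => abs_pos.2 (hr0 i), fun i => ?_, fun i s hs => ?_, fun i s hs s' hs' => ?_, fun x hx => ?_⟩
  · by_cases h : 0 < r i
    · right; simp [h]
    · left; simp [h]
  · rw [G_fix_iff]
    obtain ⟨h1, h3⟩ := hc i s hs
    refine ⟨i, by rw [h1]; exact hopen i s hs, by rw [h3], ?_⟩
    rw [h3]; ring
  · obtain ⟨h1, h3⟩ := hc i s hs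
    obtain ⟨h1', h3'⟩ := hc i s' hs'
    have h0 : 0 < |r i| := abs_pos.2 (hr0 i)
    have hdiff : (c i s').p - (c i s).p = (((s' - s) / |r i| : ℝ) : ℂ) * (v (i + 1) - v i) := by
      rw [h1, h1']; push_cast; ring
    apply seg_const hP hk _ _ _ (by rw [h3, h3'])
    · rw [fr_real, hdiff, h3, hr i]
      unfold fr
      simp only [Bool.false_eq_true, if_false]
      have he : E (kap i - e) * (Complex.I * (Complex.I * E e)) = -E (kap i) := by
        have h5 : E (kap i - e) * E e = E (kap i) := by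
          rw [← Pool.Agent.Lib.H23D.E_add]; congr 1; ring
        linear_combination (E (kap i - e) * E e) * Complex.I_sq - h5
      rw [he]
      by_cases h : 0 < r i
      · rw [if_pos h, abs_of_pos h]
        have : (r i : ℂ) ≠ 0 := by exact_mod_cast hr0 i
        push_cast
        field_simp
      · have h' : r i < 0 := lt_of_le_of_ne (not_lt.1 h) (hr0 i)
        rw [if_neg h, abs_of_neg h']
        have : (r i : ℂ) ≠ 0 := by exact_mod_cast hr0 i
        push_cast
        field_simp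
    · intro t ht
      have hpt : (c i s).p + (t : ℂ) * ((c i s').p - (c i s).p) =
          v i + (((s + t * (s' - s)) / |r i| : ℝ) : ℂ) * (v (i + 1) - v i) := by
        rw [hdiff, h1]; push_cast; ring
      have hin : s + t * (s' - s) ∈ Ioo 0 |r i| := by
        have := (convex_Ioo (0 : ℝ) |r i|) hs hs' (sub_nonneg.2 ht.2) ht.1 (by ring)
        have e2 : (1 - t) • s + t • s' = s + t * (s' - s) := by simp only [smul_eq_mul]; ring
        rwa [e2] at this
      have hop := hopen i _ hin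
      rw [← hpt] at hop
      exact ⟨(side_mem hP (openSegment_subset_segment _ _ _ hop)).1,
        fun k h => Pool.Agent.H52W.not_vertex_of_open hP i _ hop k h.symm, fun _ => by rw [h3]⟩
  · rw [G_fix_iff] at hx
    obtain ⟨i, hs, hb, ha⟩ := hx
    have h0 : 0 < |r i| := abs_pos.2 (hr0 i)
    rw [openSegment_eq_image_lineMap] at hs
    obtain ⟨t, ht, hxt⟩ := hs
    have hin : t * |r i| ∈ Ioo 0 |r i| := ⟨mul_pos ht.1 h0, by nlinarith [ht.2]⟩
    refine ⟨i, t * |r i|, hin, ?_⟩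
    obtain ⟨h1, h3⟩ := hc i _ hin
    apply SPt.ext
    · rw [h1, ← hxt, AffineMap.lineMap_apply, mul_div_assoc, div_self h0.ne', mul_one, vsub_eq_sub,
        vadd_eq_add, Complex.real_smul]
      ring
    · rw [h3]
      apply Prod.ext
      · show x.g.1 = kap i - e
        apply two_cancel hN h2
        linear_combination ha
      · exact hb

end

end Pool.Agent.Lib.H45Z
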